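import Pool.Agent.Helper70.TW.Goals

/-!
# Project TW: algebraic extensions
-/

namespace Pool.Agent.Helper70.TW

open MvPolynomial

universe u

theorem algs' (hT : TRF.{u}) : ALGS.{u} := by
  intro F K _ _ _ _ ι κ Λ _ _ _ _ _ b α β hMB f hf
  classical
  let S : Set K := Set.range (fun a : (Σ l : Λ, (f l).support) × Bool =>
    if a.2 then (coeff a.1.2.1 (f a.1.1)).re else (coeff a.1.2.1 (f a.1.1)).im)
  have : Finite S := Set.finite_range _
  let E := IntermediateField.adjoin F S
  have : FiniteDimensional F E :=
    IntermediateField.finiteDimensional_adjoin (fun x _ => Algebra.IsIntegral.isIntegral x)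
  let W : Submodule F K := Subalgebra.toSubmodule E.toSubalgebra
  have : FiniteDimensional F W := inferInstanceAs (FiniteDimensional F E)
  let bs : Module.Basis (Fin (Module.finrank F W)) F W := Module.finBasis F W
  have hpow : ∀ m : ℕ, W ^ m ≤ W := by
    intro m
    induction m with
    | zero =>
      intro x hx
      rw [pow_zero, Submodule.mem_one] at hx
      obtain ⟨y, rfl⟩ := hx
      exact E.algebraMap_mem y
    | succ m ih =>
      rw [pow_succ]
      refine Submodule.mul_le.2 fun x hx y hy => ?_
      exact E.mul_mem (ih hx) hy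
  refine hT F K ι κ Λ b α β f W (fun _ => W) (Module.finrank F W) (fun _ => Module.finrank F W)
    bs (fun _ => bs) hf ?_ (hMB _ ?_)
  · intro l d hd x hx
    have hx' : x ∈ E := hpow _ hx
    constructor
    · refine E.mul_mem (IntermediateField.subset_adjoin F S ⟨(⟨l, ⟨d, hd⟩⟩, true), ?_⟩) hx'
      simp
    · refine E.mul_mem (IntermediateField.subset_adjoin F S ⟨(⟨l, ⟨d, hd⟩⟩, false), ?_⟩) hx'
      simp
  · have : 0 < Module.finrank F E := Module.finrank_pos
    exact this

end Pool.Agent.Helper70.TW
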