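import Mathlib

/-!
# The explicit bounds of MP_c7dfba_nt
-/

namespace Pool.Agent.Helper70.TW

/-- The bound for systems of `r` diagonal forms of degree `d` over a field of transcendence degree at
most `i` over a real closed field in which `-1` is a sum of `2 ^ s` squares:
`Psi i r 0 d = r d^i + 1`, `Psi i r 1 d = r d (2 d)^i + 1`,
`Psi i r (s + 2) d = ∏_{e = 1}^{d} Psi i r (s + 1) (2 lcm(d, e))`. -/
def Psi (i r : ℕ) : ℕ → ℕ → ℕ
  | 0, d => r * d ^ i + 1
  | 1, d => r * d * (2 * d) ^ i + 1
  | s + 2, d => ∏ e ∈ Finset.range d, Psi i r (s + 1) (2 * Nat.lcm d (e + 1))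

/-- The bound for systems of `r` forms of degrees at most `d` over nonreal fields of transcendence
degree at most one over a real closed field: `r + 1` for `d ≤ 1`, `r (r + 1) + 1` for `d = 2`,
`4` for `r = 1`, `d = 3`, `53` for `r = 1`, `d = 4`, and in all other cases
`r d (2 B + d choose d) + 1` where `B = BdF r ⌊d / 2⌋`. -/
def BdF (r : ℕ) (d : ℕ) : ℕ :=
  if h : d ≤ 1 then r + 1
  else if d = 2 then r * (r + 1) + 1
  else if r = 1 ∧ d = 3 then 4
  else if r = 1 ∧ d = 4 then 53
  else r * d * (2 * BdF r (d / 2) + d).choose d + 1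
termination_by d
decreasing_by omega

end Pool.Agent.Helper70.TW
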