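import Pool.Agent.Helper70.BU.Defs
import Pool.Agent.Helper70.Lang.Stmts

/-!
# Project TW, part TW: definitions

`GF A = A[i]` with `star` the conjugation; systems of block-bihomogeneous equations in `z` and
`conj z`.
-/

namespace Pool.Agent.Helper70.TW

open MvPolynomial Pool.Agent.Helper70.BU

universe u v

/-- The ring `A[i]`, `i² = -1`. -/
abbrev GF (A : Type u) [CommRing A] : Type u := QuadraticAlgebra A (-1) 0

variable {ι κ : Type}

/-- The value of a polynomial in the variables `z i` (the variables `Sum.inl i`) and their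
conjugates (the variables `Sum.inr i`). -/
noncomputable def evs {A : Type u} [CommRing A] (z : ι → GF A)
    (f : MvPolynomial (ι ⊕ ι) (GF A)) : GF A :=
  eval (Sum.elim z (fun i => star (z i))) f

/-- Every monomial of `f` has, in block `k`, degree `α k` in the variables `inl` and degree `β k` in
the variables `inr`. -/
def Mh {A : Type u} [CommSemiring A] [Fintype ι] [DecidableEq κ] (b : ι → κ) (α β : κ → ℕ)
    (f : MvPolynomial (ι ⊕ ι) A) : Prop :=
  ∀ d ∈ f.support, ∀ k, ∑ i with b i = k, d (Sum.inl i) = α k ∧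
    ∑ i with b i = k, d (Sum.inr i) = β k

/-- Every system of equations `f l (z, conj z) = 0` with `f l` block-bihomogeneous of bidegree
`(α l, β l)` has a solution over `F[i]` all of whose blocks are nonzero. -/
def MB (F : Type u) [Field F] [Fintype ι] [DecidableEq κ] {Λ : Type} (b : ι → κ)
    (α β : Λ → κ → ℕ) : Prop :=
  ∀ f : Λ → MvPolynomial (ι ⊕ ι) (GF F), (∀ l, Mh b (α l) (β l) (f l)) →
    ∃ z : ι → GF F, (∀ k, ∃ i, b i = k ∧ z i ≠ 0) ∧ ∀ l, evs z (f l) = 0

/-- The twisted Tsen-Lang property, with several blocks: if all bidegrees satisfy `α l ≠ β l` and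
every block has more than `∑_l (total degree of l)^j` variables then `MB` holds. -/
def TPM (F : Type u) [Field F] (j : ℕ) : Prop :=
  ∀ (ι κ Λ : Type) [Fintype ι] [DecidableEq ι] [Fintype κ] [DecidableEq κ] [Fintype Λ]
    (b : ι → κ) (α β : Λ → κ → ℕ), (∀ l, α l ≠ β l) →
    (∀ k, ∑ l, (∑ k', (α l k' + β l k')) ^ j < bn b k) → MB F b α β

/-- Every system of `r` forms of degrees in `[1, d]` over `K` in `n` variables has a nontrivial
common zero. -/
def PB (K : Type u) [Field K] (d r n : ℕ) : Prop :=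
  ∀ (e : Fin r → ℕ) (f : Fin r → MvPolynomial (Fin n) K), (∀ j, 1 ≤ e j ∧ e j ≤ d) →
    (∀ j, (f j).IsHomogeneous (e j)) → ∃ x : Fin n → K, x ≠ 0 ∧ ∀ j, eval x (f j) = 0

/-- The index set of the scalars `μ` (`none`), `λ_k` (`some (inl k)`), `conj λ_k` (`some (inr k)`). -/
abbrev Sc (p : ℕ) : Type := Option (Fin p ⊕ Fin p)

/-- The polynomial `f (∑_k (λ_k w_k + λ'_k w'_k) + μ v)` in the scalars `λ_k, λ'_k, μ`, with
coefficients polynomials in the entries of `w_k` (the variables `inl (i, k)`) and `w'_k` (the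
variables `inr (i, k)`). -/
noncomputable def expP {K : Type u} [Field K] {n : ℕ} (p : ℕ) (v : Fin n → K)
    (f : MvPolynomial (Fin n) K) :
    MvPolynomial (Sc p) (MvPolynomial ((Fin n × Fin p) ⊕ (Fin n × Fin p)) (GF K)) :=
  eval₂ ((C : MvPolynomial ((Fin n × Fin p) ⊕ (Fin n × Fin p)) (GF K) →+* _).comp
      ((C : GF K →+* _).comp (algebraMap K (GF K))))
    (fun i => (∑ k : Fin p, (X (some (Sum.inl k)) * C (X (Sum.inl (i, k))) +
      X (some (Sum.inr k)) * C (X (Sum.inr (i, k))))) + X none * C (C (algebraMap K (GF K) (v i)))) f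

/-- The coefficient of the monomial `m` in `expP`. -/
noncomputable def cf {K : Type u} [Field K] {n : ℕ} (p : ℕ) (v : Fin n → K)
    (f : MvPolynomial (Fin n) K) (m : Sc p → ℕ) :
    MvPolynomial ((Fin n × Fin p) ⊕ (Fin n × Fin p)) (GF K) :=
  coeff (Finsupp.equivFunOnFinite.symm m) (expP p v f)

/-- The swap of `λ_k` and `conj λ_k` on exponents. -/
def swp {p : ℕ} (m : Sc p → ℕ) : Sc p → ℕ
  | none => m none
  | some (Sum.inl k) => m (some (Sum.inr k))
  | some (Sum.inr k) => m (some (Sum.inl k))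

/-- The vector `∑_k (λ_k w_k + conj (λ_k w_k)) + μ v` (it has entries in `K`: this is the real part;
`z (i, k)` is the `i`-th entry of `w_k`). -/
def vec {K : Type u} [Field K] {n p : ℕ} (v : Fin n → K) (z : Fin n × Fin p → GF K)
    (l : Fin p → GF K) (μ : K) (i : Fin n) : K :=
  ∑ k, 2 * (l k * z (i, k)).re + μ * v i

/-- The bound for systems of `r` forms of degree at most `d` (fields of transcendence degree 1). -/
def Bd (r : ℕ) (d : ℕ) : ℕ :=
  if h : d ≤ 1 then r + 1
  else r * d * (2 * Bd r (d / 2) + d).choose d + 1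
termination_by d
decreasing_by omega

end Pool.Agent.Helper70.TW
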