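import Pool.Agent.Helper70.TW.Defs
import Pool.Agent.Helper70.BU.Goals
import Pool.Agent.Helper70.RC.Goals

/-!
# Project TW, part TW: goals

Every goal is a proposition `def NAME : Prop`; a packet `NAME` asks for a theorem
`(hypotheses stated in the packet) → Pool.Agent.Helper70.TW.NAME`.  Every docstring contains a
complete proof.
-/

namespace Pool.Agent.Helper70.TW

open MvPolynomial Pool.Agent.Helper70.BU

universe u v

/-- **SUBS**.  Substitute `z_i = ∑_p w_p y_{i p}` with `w_p` in a subspace `W` of `K`.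

PROOF.  `g` is obtained from `f` by `X (inl i) ↦ ∑_p C (w_p) X (inl (i, p))`,
`X (inr i) ↦ ∑_p C (w_p) X (inr (i, p))` (`aeval`; `w_p` means `algebraMap K (GF K) (w p)`, fixed by
`star`).  The evaluation formula follows from `star (∑ w_p y_{ip}) = ∑ w_p star y_{ip}` and composition
of evaluations.  Write `f = ∑_d C (c_d) X^d`, so `g = ∑_d C (c_d) Π_d`, `Π_d` a product of
`|d| = ∑_k (α k + β k) =: δ` of the linear forms above (`|d| = ∑_k ∑_{i in block k} (d (inl i) + d (inr i))`).
Multidegrees: a product of `d (inl i)` linear forms in the variables `inl (i, ·)` etc., so every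
monomial of `Π_d` has degree `∑_{i in block k} d (inl i) = α k` in the `inl` variables of block `k`, etc.
Coefficients: let `A_m` be the set of polynomials all of whose coefficients are of the form
`algebraMap K (GF K) x` with `x ∈ W ^ m` (power of submodules of the `F`-algebra `K`).  `1 ∈ A_0`,
the linear forms are in `A_1`, `A_m A_m' ⊆ A_(m + m')` (`coeff_mul`, `Submodule.mul_mem_mul`, `pow_add`), `A_m`
is closed under addition.  So `Π_d ∈ A_δ` and the coefficients of `C (c_d) Π_d` are `c_d x` with `x ∈ W^δ`,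
with real part `re c_d * x ∈ W'` and imaginary part `im c_d * x ∈ W'`. -/
def SUBS : Prop :=
  ∀ (F K : Type u) [Field F] [Field K] [Algebra F K] (ι κ : Type) [Fintype ι] [DecidableEq ι]
    [Fintype κ] [DecidableEq κ] (b : ι → κ) (α β : κ → ℕ) (f : MvPolynomial (ι ⊕ ι) (GF K))
    (W W' : Submodule F K) (s : ℕ) (w : Fin s → K),
    Mh b α β f → (∀ p, w p ∈ W) →
    (∀ d ∈ f.support, ∀ x ∈ W ^ (∑ k, (α k + β k)),
      (coeff d f).re * x ∈ W' ∧ (coeff d f).im * x ∈ W') →
    ∃ g : MvPolynomial ((ι × Fin s) ⊕ (ι × Fin s)) (GF K),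
      Mh (fun x : ι × Fin s => b x.1) α β g ∧
      (∀ d, (coeff d g).re ∈ W' ∧ (coeff d g).im ∈ W') ∧
      ∀ y : ι × Fin s → GF K,
        evs (fun i => ∑ p, algebraMap K (GF K) (w p) * y (i, p)) f = evs y g

/-- **TRF** (prove `SUBS.{u} → TRF.{u}`).  Transfer of systems from `K` to a subfield `F`.

PROOF.  Apply SUBS to every `f l`, `W`, `W' l` and the basis `w` of `W`: polynomials `g l`.  For every
`l` and `q : Fin (t l)` extend the coordinate function of the basis `w' l` to an `F`-linear map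
`c l q : K → F` (`LinearMap.exists_extend`), so `x = ∑_q c l q x • w' l q` for `x ∈ W' l`.  Let
`f' (l, q)` be the polynomial over `GF F` with coefficients `⟨c l q (re), c l q (im)⟩` of those of `g l`
(same or smaller support, e.g. `Finsupp.mapRange`); it satisfies `Mh`.  By the hypothesis `MB F` there
is `y : ι × Fin s → GF F` with all blocks nonzero and `evs y (f' (l, q)) = 0` for all `l, q`.  Let
`φ : GF F → GF K` be the ring homomorphism induced by `algebraMap F K`; it commutes with `star`.  Put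
`z i = ∑_p w_p φ (y (i, p))`.  Then
`evs z (f l) = evs (φ ∘ y) (g l) = ∑_d coeff d (g l) φ(y^d) = ∑_q w'_q φ (evs y (f' (l, q))) = 0`,
because `coeff d (g l) = ∑_q w'_q φ (coeff d (f' (l, q)))` (real and imaginary parts are in `W' l`).
If `y (i, p) ≠ 0` then `z i ≠ 0`: its real part is `∑_p w_p re (y (i, p))`, its imaginary part
`∑_p w_p im (y (i, p))`, and the `w_p` are linearly independent over `F`. -/
def TRF : Prop :=
  ∀ (F K : Type u) [Field F] [Field K] [Algebra F K] (ι κ Λ : Type) [Fintype ι] [DecidableEq ι]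
    [Fintype κ] [DecidableEq κ] [Fintype Λ] (b : ι → κ) (α β : Λ → κ → ℕ)
    (f : Λ → MvPolynomial (ι ⊕ ι) (GF K)) (W : Submodule F K) (W' : Λ → Submodule F K)
    (s : ℕ) (t : Λ → ℕ) (_ : Module.Basis (Fin s) F W)
    (_ : ∀ l, Module.Basis (Fin (t l)) F (W' l)),
    (∀ l, Mh b (α l) (β l) (f l)) →
    (∀ l, ∀ d ∈ (f l).support, ∀ x ∈ W ^ (∑ k, (α l k + β l k)),
      (coeff d (f l)).re * x ∈ W' l ∧ (coeff d (f l)).im * x ∈ W' l) →
    MB F (fun x : ι × Fin s => b x.1) (fun l : (Σ l : Λ, Fin (t l)) => α l.1)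
      (fun l => β l.1) →
    ∃ z : ι → GF K, (∀ k, ∃ i, b i = k ∧ z i ≠ 0) ∧ ∀ l, evs z (f l) = 0

/-- **ALGS** (prove `TRF.{u} → ALGS.{u}`).  Algebraic extensions.

PROOF.  Given the system `f` over `K`, let `E ⊆ K` be the subfield generated over `F` by the (finitely
many) real and imaginary parts of the coefficients of all `f l`; it is a finite extension of `F`, of
degree `e ≥ 1`.  Apply TRF with `W = W' l = E` (as `F`-subspace of `K`), `s = t l = e` and a basis of
`E` indexed by `Fin e`.  `W ^ m ≤ E` for all `m` (also `m = 0`) because `E` is a subalgebra, so the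
condition holds.  (Compare `Pool.Agent.Helper51.Lang.cAlg` in Helper51/Lang/CAlg.lean.) -/
def ALGS : Prop :=
  ∀ (F K : Type u) [Field F] [Field K] [Algebra F K] [Algebra.IsAlgebraic F K] (ι κ Λ : Type)
    [Fintype ι] [DecidableEq ι] [Fintype κ] [DecidableEq κ] [Fintype Λ] (b : ι → κ)
    (α β : Λ → κ → ℕ),
    (∀ e : ℕ, 1 ≤ e → MB F (fun x : ι × Fin e => b x.1) (fun l : (Σ _ : Λ, Fin e) => α l.1)
      (fun l => β l.1)) →
    MB K b α β

/-- **SIMS** (prove `TRF.{u} → SIMS.{u}`).  Simple transcendental extensions.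

PROOF.  Given the system `f` over `K`, the finitely many real and imaginary parts of the coefficients
have a common denominator: there are `q ∈ F[X]`, `q ≠ 0` and `c` such that each of them times
`q(t)` is `p(t)` with `p ∈ F[X]` of degree `≤ c` (`Pool.Agent.Helper51.Lang.common_denom`).  Take `s` from the
hypothesis for this `c`.  Let `W = {p(t) : deg p ≤ s}` (basis `1, t, …, t^s`, indexed by `Fin (s + 1)`) and
`W' l = {p(t) / q(t) : deg p ≤ δ_l s + c}` with `δ_l = ∑_k (α l k + β l k)` (basis `t^m / q(t)`).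
`W ^ δ ⊆ {p(t) : deg p ≤ δ s}` by induction on `δ`.  So the condition of TRF holds.
(Compare `Pool.Agent.Helper51.Lang.cTrans` in Helper51/Lang/CAlg.lean.) -/
def SIMS : Prop :=
  ∀ (F K : Type u) [Field F] [Field K] [Algebra F K] (t : K), Transcendental F t →
    (∀ x : K, ∃ p q : Polynomial F, x = Polynomial.aeval t p / Polynomial.aeval t q) →
    ∀ (ι κ Λ : Type) [Fintype ι] [DecidableEq ι] [Fintype κ] [DecidableEq κ] [Fintype Λ]
    (b : ι → κ) (α β : Λ → κ → ℕ),
    (∀ c : ℕ, ∃ s : ℕ, MB F (fun x : ι × Fin (s + 1) => b x.1)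
      (fun l : (Σ l : Λ, Fin ((∑ k, (α l k + β l k)) * s + c + 1)) => α l.1)
      (fun l => β l.1)) →
    MB K b α β

/-- **BURC** (prove `BUG → RC.TT.{u} → BURC.{u}`).  The Borsuk-Ulam theorem with weights over every
real closed field.

PROOF.  Fix the system `f` over `R`, let `S_l = (f l).support`.  Index the (unknown) coefficients by
`A = (Σ l, S_l) × Bool` and the (unknown) coordinates by `B = ι × Bool` (`false` = real part, `true` =
imaginary part), `Z = MvPolynomial (A ⊕ B) ℤ`.  In `GF Z` let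
`V_l = ∑_{d ∈ S_l} ⟨X a_(l,d,false), X a_(l,d,true)⟩ ∏_i ⟨X x_(i,false), X x_(i,true)⟩^{d (inl i)}
  ∏_i ⟨X x_(i,false), - X x_(i,true)⟩^{d (inr i)}`.
The integer polynomials are the real and imaginary parts of all `V_l` and, for every block `k`,
`∑_{i in block k} (x_(i,false)² + x_(i,true)²) - 1`.  A ring homomorphism `Z → k` induces
`GF Z → GF k`; it maps `V_l` to `evs z (f_l)` where `f_l` has the coefficients given by the values at
`A` on the support `S_l`, and `z` has the coordinates given by the values at `B`.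
Over `k = ℝ`: for all values of the coefficients the system has a solution, by BUG: identify `GF ℝ` with
`ℂ` (`⟨x, y⟩ ↦ x + y i`, `star` becomes complex conjugation); the monomials of `f_l` are in `S_l`, so have
weight `χ l k = α l k - β l k` (`Wh`); the solution lies in `Sph b`, which is the last set of equations.
By RC.TT the system with the coefficients of `f` has a solution over `R`; this gives `z` with
`evs z (f l) = 0` and `∑_{i in block k} (re² + im²) = 1` so every block is nonzero. -/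
def BURC : Prop :=
  ∀ (R : Type u) [Field R] [IsRealClosed R] (ι κ Λ : Type) [Fintype ι] [DecidableEq ι]
    [Fintype κ] [DecidableEq κ] [Fintype Λ] (b : ι → κ) (α β : Λ → κ → ℕ) (e : κ → ℕ),
    (∀ k, e k < bn b k) → ∑ k, e k = Fintype.card Λ →
    coeff (Finsupp.equivFunOnFinite.symm e)
      (∏ l, ∑ k, C ((α l k : ℤ) - (β l k : ℤ)) * X k : MvPolynomial κ ℤ) ≠ 0 →
    MB R b α β

/-- **TPMZ** (prove `BURC.{u} → TPMZ.{u}`).  Real closed fields have the property `TPM` for `j = 0`.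

PROOF.  The condition says `#Λ < bn b k` for all `k`.  The polynomial
`G = ∏_l ∑_k (α l k - β l k) X_k` over `ℤ` is nonzero: every factor is (its coefficient at `X_k` is nonzero
for some `k` with `α l k ≠ β l k`).  `G` is homogeneous of degree `#Λ`.  Take a monomial `e` of `G`; then
`∑ e k = #Λ` and `e k ≤ #Λ < bn b k`.  Apply BURC. -/
def TPMZ : Prop := ∀ (R : Type u) [Field R] [IsRealClosed R], TPM R 0

/-- **TPMA** (prove `ALGS.{u} → TPMA.{u}`).

PROOF.  For `MB K b α β` use ALGS: for `e ≥ 1` the map `x ↦ b x.1` on `ι × Fin e` has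
`bn = bn b k * e`, and `∑ over (Σ _ : Λ, Fin e)` of `δ^j` is `e ∑_l δ_l^j`; so TPM F j applies. -/
def TPMA : Prop :=
  ∀ (F K : Type u) [Field F] [Field K] [Algebra F K] [Algebra.IsAlgebraic F K] (j : ℕ),
    TPM F j → TPM K j

/-- **TPMS** (prove `SIMS.{u} → TPMS.{u}`).

PROOF.  Let `δ_l = ∑_k (α l k + β l k)`, `D = ∑_l δ_l^(j+1) < bn b k` for all `k`.  For `c` take
`s = (c + 1) ∑_l δ_l^j`.  Then for the system in SIMS
`∑_l (δ_l s + c + 1) δ_l^j = s D + (c + 1) ∑_l δ_l^j = s (D + 1) < (s + 1) (D + 1) ≤ (s + 1) bn b k`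
(if `D + 1 ≥ 1`), and the block `k` of `ι × Fin (s + 1)` has `bn b k * (s + 1)` elements.  Apply TPM F j. -/
def TPMS : Prop :=
  ∀ (F K : Type u) [Field F] [Field K] [Algebra F K] (t : K), Transcendental F t →
    (∀ x : K, ∃ p q : Polynomial F, x = Polynomial.aeval t p / Polynomial.aeval t q) →
    ∀ j, TPM F j → TPM K (j + 1)

/-- **TPMR** (prove `TPMZ.{u} → TPMA.{u} → TPMS.{u} → TPMR.{u, v}`).  The twisted Tsen-Lang theorem.

PROOF.  (1) `TPM F j → TPM F (j + 1)` if every `δ_l ≥ 1`: here `δ_l ≥ 1` follows from `α l ≠ β l`; so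
`δ_l^j ≤ δ_l^(j+1)`.
(2) For `F, K : Type u`: `Algebra.trdeg F K ≤ m → TPM F j → TPM K (j + m)`, by induction on `m`
exactly as in `Helper70.Lang.cprop_trdeg` (Helper70/Lang/Main.lean; copy it): if `K` is algebraic
over `F` use TPMA and (1); otherwise take `t` transcendental, `F' = IntermediateField.adjoin F {t}` has
TPM for `j + 1` by TPMS (elements of `F'` are quotients, `IntermediateField.mem_adjoin_simple_iff`; the
element `AdjoinSimple.gen F t` of `F'` is transcendental) and `trdeg F' K ≤ m - 1`.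
(3) Let `R : Type v` be real closed, `K : Type u`.  Let `R' = (⊥ : IntermediateField R K)`, of type
`Type u`; it is isomorphic to `R` (`IntermediateField.botEquiv R K`) so it is real closed (transport
`IsSemireal`, squares and roots through the isomorphism), and `trdeg R' K ≤ trdeg R K`
(`trdeg_add_eq`, as in `Helper70.Lang.level_one`).  By TPMZ and (2), `TPM K (0 + i)`. -/
def TPMR : Prop :=
  ∀ (R : Type v) (K : Type u) [Field R] [IsRealClosed R] [Field K] [Algebra R K] (i : ℕ),
    Algebra.trdeg R K ≤ (i : Cardinal.{u}) → TPM K i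

/-- **TWF**.  The version for a field `L = K(I)`, `I² = -1`, with conjugation `σ`.

PROOF.  `θ : GF K → L`, `⟨a, b⟩ ↦ a + b I` is a ring homomorphism (`QuadraticAlgebra.lift`), surjective by
hypothesis, `θ (star x) = σ (θ x)`.  It is injective: if `a + b I = 0` then applying `σ`, `a - b I = 0`,
so `2 a = 0` and `2 b I = 0`, so `a = b = 0`.  Pull the coefficients of `f l` back to `GF K`
(`MvPolynomial.map` of the inverse ring equivalence; same support), apply `TPM K j`, push the solution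
forward. -/
def TWF : Prop :=
  ∀ (K L : Type u) [Field K] [Field L] [Algebra K L] (σ : L →ₐ[K] L) (I : L),
    (2 : K) ≠ 0 → I ^ 2 = -1 → σ I = -I →
    (∀ x : L, ∃ a b : K, x = algebraMap K L a + algebraMap K L b * I) →
    ∀ j, TPM K j → ∀ (ι κ Λ : Type) [Fintype ι] [DecidableEq ι] [Fintype κ] [DecidableEq κ]
    [Fintype Λ] (b : ι → κ) (α β : Λ → κ → ℕ) (f : Λ → MvPolynomial (ι ⊕ ι) L),
    (∀ l, α l ≠ β l) → (∀ l, Mh b (α l) (β l) (f l)) →
    (∀ k, ∑ l, (∑ k', (α l k' + β l k')) ^ j < bn b k) →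
    ∃ z : ι → L, (∀ k, ∃ i, b i = k ∧ z i ≠ 0) ∧
      ∀ l, eval (Sum.elim z (fun i => σ (z i))) (f l) = 0

/-- **WID**.  Expansion of `(s w w' + ρ w² + ρ' w'²)^d` when `ρ ρ' = -1`.

PROOF.  Multinomial theorem (two applications of `add_pow`): the expression is
`∑_{a + b + c = d} d! / (a! b! c!) (s w w')^c (ρ w²)^a (ρ' w'²)^b`, and
`w^(2a + c) w'^(2b + c) = w^(d + a - b) w'^(d - a + b)`.  Terms with `a = b`: `c = d - 2b`, the coefficient is
`d! / (b!² (d - 2b)!) (ρ ρ')^b s^(d - 2b) = (d choose 2b) (2b choose b) (-1)^b s^(d - 2b)`.  Terms with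
`a - b = k + 1 > 0` are collected in `C k`, those with `b - a = k + 1 > 0` in `C' k`; these coefficients
depend only on `s, ρ, ρ', d`. -/
def WID : Prop :=
  ∀ (L : Type u) [CommRing L] (s ρ ρ' : L), ρ * ρ' = -1 → ∀ d : ℕ, ∃ Cc Cc' : ℕ → L,
    ∀ w w' : L, (s * (w * w') + ρ * w ^ 2 + ρ' * w' ^ 2) ^ d =
      (∑ b ∈ Finset.range (d / 2 + 1),
        (d.choose (2 * b) : L) * ((2 * b).choose b : L) * (-1) ^ b * s ^ (d - 2 * b)) *
        (w * w') ^ d +
      ∑ k ∈ Finset.range d, (Cc k * (w ^ (d + (k + 1)) * w' ^ (d - (k + 1))) +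
        Cc' k * (w ^ (d - (k + 1)) * w' ^ (d + (k + 1))))

/-- **WDIAG** (prove `WID.{u} → Helper70.Lang.Root.{v} → WDIAG.{u, v}`).  Systems of diagonal forms
over a field in which `-1` is a sum of two squares.

PROOF.  `L = GF K` is a field (`-1` is not a square in `K`).  Let `ρ = ⟨x, y⟩`, so `ρ star ρ = x² + y² = -1`.
There is `s ∈ R` with `∑_{b ≤ d/2} (d choose 2b) (2b choose b) (-1)^b s^(d - 2b) = 0`: if `d` is odd take
`s = 0` (all exponents `d - 2b` are positive); if `d = 2c`, Root gives `s₀` with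
`∑_{b ≤ c} (2c choose 2b) (2b choose b) (- s₀²)^b = 0`, `s₀ ≠ 0` (the term `b = 0` is `1`), and `s = 1 / s₀`
works (multiply by `s^(2c)`).
Apply `TPM K i` with `ι = Fin n`, `κ = Unit`, `Λ = Fin r × Fin d`, bidegree of `(j, k)`:
`(d + (k + 1), d - (k + 1))`, of total degree `2d`, and the polynomials
`S_(j,k) = ∑_l a j l X(inl l)^(d + (k+1)) X(inr l)^(d - (k+1))`: `#Λ (2d)^i = r d (2d)^i < n`.  This gives
`w : Fin n → L`, `w ≠ 0`, `∑_l a j l w_l^(d+(k+1)) (star w_l)^(d-(k+1)) = 0` for all `j, k`.  Let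
`x_l = s w_l star w_l + ρ w_l² + star (ρ w_l²) ∈ K` (fixed by `star`).  By WID
`∑_l a j l x_l^d = 0 + ∑_k (C_k S_(j,k)(w) + C'_k star (S_(j,k)(w))) = 0`.
`x ≠ 0`: let `w_l ≠ 0` and suppose `x_l = 0`.  `ζ = ρ w_l / star w_l` satisfies `star ζ = star ρ star w_l / w_l`,
`ζ star ζ = -1` and `ζ + star ζ = -s` (divide `x_l` by `w_l star w_l`).  So `ζ` is a root of
`T² + s T - 1`, `(2 ζ + s)² = s² + 4`, which is a nonzero square `u²`, `u ∈ R` (`R` is real closed: `s² + 4`
is a sum of squares, hence a square, `FTA.sum_sq_eq_sq`).  So `2 ζ + s = ± u`, so `ζ ∈ R`, `star ζ = ζ` and `ζ² = -1` with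
`ζ ∈ K`, a contradiction. -/
def WDIAG : Prop :=
  ∀ (R : Type v) (K : Type u) [Field R] [IsRealClosed R] [Field K] [Algebra R K] (i : ℕ),
    TPM K i → (∀ x : K, x ^ 2 ≠ -1) → (∃ x y : K, x ^ 2 + y ^ 2 = -1) →
    ∀ r d n : ℕ, 1 ≤ d → r * d * (2 * d) ^ i < n → ∀ a : Fin r → Fin n → K,
      ∃ x : Fin n → K, x ≠ 0 ∧ ∀ j, ∑ l, a j l * x l ^ d = 0

/-- **NSUR**.  If `-1` is a sum of two squares, not a square, and ternary diagonal quadratic forms
over `K(i)` are isotropic then every element of `K` is a sum of two squares.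

PROOF.  `L = GF K` is a field.  Let `N x = x star x ∈ K`; `ρ = ⟨x₀, y₀⟩`, `N ρ = -1`.  Let `c ≠ 0`.  There is
`(A, B, C) ≠ 0` in `L` with `A² - c B² - ρ C² = 0`.
If `C = 0` then `B ≠ 0` and `c = (A/B)²`, `A/B = ⟨p, q⟩`: `c = p² - q²`, `2 p q = 0`.  So `c = p²`, or
`p = 0` and `c = - q² = (x₀ q)² + (y₀ q)²`.
If `C ≠ 0` we may assume `C = 1`: `A² - c B² = ρ`.  Let `U = N A + c N B`, `V = A star B + star A B`, both in `K`.
Then `U² - c V² = N (A² - c B²) = N ρ = -1`.  `V ≠ 0` because `-1` is not a square.  So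
`c = (U / V)² + (1 / V)²`. -/
def NSUR : Prop :=
  ∀ (K : Type u) [Field K] [CharZero K], (∀ x : K, x ^ 2 ≠ -1) →
    (∃ x y : K, x ^ 2 + y ^ 2 = -1) →
    (∀ a b c : GF K, ∃ x y z : GF K, (x ≠ 0 ∨ y ≠ 0 ∨ z ≠ 0) ∧
      a * x ^ 2 + b * y ^ 2 + c * z ^ 2 = 0) →
    ∀ c : K, ∃ x y : K, x ^ 2 + y ^ 2 = c

/-- **TERN**.  Ternary quadratic forms over `K` are isotropic.

PROOF.  Let `Q x = ∑ q i j x_i x_j` and `B x y = (Q (x + y) - Q x - Q y) / 2`, a symmetric bilinear form.
The hypothesis for `q` (mapped to `GF K`) gives `x + i y ≠ 0`, `x, y ∈ K³`, with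
`Q x - Q y + 2 i B x y = 0`; so `Q x = Q y = a`, `B x y = 0`.  If `a = 0` then `x` or `y` is a nontrivial
zero.  Let `a ≠ 0`.  There is `w ≠ 0` in `K³` with `B x w = B y w = 0` (two linear equations in three
unknowns).  If `Q w = 0` done.  Otherwise take `p, q` with `p² + q² = - Q w / a` and
`v = p x + q y + w`: `Q v = a (p² + q²) + Q w = 0`, and `v ≠ 0` because `B v w = Q w ≠ 0`. -/
def TERN : Prop :=
  ∀ (K : Type u) [Field K] [CharZero K],
    (∀ c : K, ∃ x y : K, x ^ 2 + y ^ 2 = c) →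
    (∀ q : Fin 3 → Fin 3 → GF K, ∃ x : Fin 3 → GF K, x ≠ 0 ∧
      ∑ i, ∑ j, q i j * x i * x j = 0) →
    ∀ q : Fin 3 → Fin 3 → K, ∃ x : Fin 3 → K, x ≠ 0 ∧ ∑ i, ∑ j, q i j * x i * x j = 0

/-- **QH**.  Bidegrees of the coefficients of `expP`.

PROOF.  Induction on `f` (`MvPolynomial.induction_on`).  `f = C a`: `expP = C (C (C a))`, the coefficient is
nonzero only for `m = 0`, and constant.  Sums: `Mh` is closed under addition.
`f * X i`: the coefficient of `m` in `expP (f * X i) = expP f * (∑_k …)` is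
`∑_k (X (inl (i, k)) * cf f (m - e_(some (inl k))) + X (inr (i, k)) * cf f (m - e_(some (inr k))))
 + C (v i) * cf f (m - e_none)`, where a term is present only if the corresponding entry of `m` is
positive (`MvPolynomial.coeff_mul_X'`-type lemmas, or use `Finsupp` versions); multiplication by
`X (inl (i, k))` raises the `inl`-degree of block `k` by one, etc. -/
def QH : Prop :=
  ∀ (K : Type u) [Field K] (n p : ℕ) (v : Fin n → K) (f : MvPolynomial (Fin n) K)
    (m : Sc p → ℕ),
    Mh (Prod.snd : Fin n × Fin p → Fin p) (fun k => m (some (Sum.inl k)))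
      (fun k => m (some (Sum.inr k))) (cf p v f m)

/-- **QS**.  Conjugation symmetry of the coefficients of `expP`.

PROOF.  Induction on `f` as in QH.  `f = C a`: both sides are `a` if `m = 0`, else `0`
(`swp m = 0 ↔ m = 0`).  `f * X i`: by the coefficient formula in QH,
`evs z (cf (f X_i) m) = ∑_k (z (i,k) evs z (cf f (m - e_(inl k))) + star (z (i,k)) evs z (cf f (m - e_(inr k))))
 + v_i evs z (cf f (m - e_none))`; apply `star` and use
`swp (m - e_(inl k)) = swp m - e_(inr k)` etc. -/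
def QS : Prop :=
  ∀ (K : Type u) [Field K] (n p : ℕ) (v : Fin n → K) (f : MvPolynomial (Fin n) K)
    (m : Sc p → ℕ) (z : Fin n × Fin p → GF K),
    star (evs z (cf p v f m)) = evs z (cf p v f (swp m))

/-- **QE**.  Evaluation formula.

PROOF.  Let `Φ : MvPolynomial (Sc p) (MvPolynomial _ (GF K)) → GF K` be the ring homomorphism which is
`evs z` on the coefficients and `some (inl k) ↦ l k`, `some (inr k) ↦ star (l k)`, `none ↦ μ`.  Then
`Φ ∘ expP` is the ring homomorphism `K[X] → GF K` given on constants by `algebraMap` and with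
`X i ↦ ∑_k (l k z (i,k) + star (l k) star (z (i,k))) + μ v_i = algebraMap (vec v z l μ i)`, since
`x + star x = 2 re x`.  So `Φ (expP p v f) = algebraMap (eval (vec v z l μ) f)`.  On the other hand
`expP p v f` is homogeneous of degree `d` (a homogeneous polynomial of degree `d` evaluated at linear
forms), so it is the sum over `m` with `∑ m = d` of its monomials. -/
def QE : Prop :=
  ∀ (K : Type u) [Field K] (n p d : ℕ) (v : Fin n → K) (f : MvPolynomial (Fin n) K),
    f.IsHomogeneous d → ∀ (z : Fin n × Fin p → GF K) (l : Fin p → GF K) (μ : K),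
    algebraMap K (GF K) (eval (vec v z l μ) f) =
      ∑ m ∈ Finset.piAntidiag (Finset.univ : Finset (Sc p)) d,
        evs z (cf p v f m) * (∏ k, (l k ^ m (some (Sum.inl k)) *
          star (l k) ^ m (some (Sum.inr k)))) * algebraMap K (GF K) μ ^ m none

/-- **COEF**.  Coefficients of a product of linear forms in two variables.

PROOF.  Let `T = #Λ` and `M = T - A - B`.  The product is `c x₀^A x₁^B ∏_{l ∈ Λ'} (a_l x₀ + b_l x₁)` with
`c ≠ 0` an integer, `Λ'` the set of `l` with both `a_l = χ l 0`, `b_l = χ l 1` nonzero, `#Λ' = M`.  So the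
coefficient of `x₀^(A + i) x₁^(T - A - i)` is `c` times the coefficient `g_i` of the univariate polynomial
`g = ∏_{l ∈ Λ'} (a_l X + b_l) ∈ ℤ[X]` (or over `ℝ`).  Claim: for `0 ≤ i < i + 1 ≤ M`, not both `g_i = 0` and
`g_(i+1) = 0`.  Proof: `g_0 ≠ 0`, `g_M ≠ 0`, all roots of `g` are real.  If the claim fails take the largest
`i₀ < i` with `g_{i₀} ≠ 0`; so `g_{i₀+1} = g_{i₀+2} = 0`, `i₀ + 2 ≤ M` (in fact `< M`).  Let
`h = g^{(i₀)}` (derivative over `ℝ`).  By Rolle's theorem `h` has only real roots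
(`Polynomial.card_roots_le_derivative`: if all roots of a real polynomial of degree `m` are real, i.e. the
multiset of roots has cardinality `m`, the derivative has at least `m - 1` roots).
`h(0) ≠ 0`, and its coefficients of degrees one and two vanish, and `deg h = M - i₀ ≥ 1`.  Write
`h = h(0) ∏_r (1 - X / r)` over its nonzero real roots `r`.  For a finite product
`P = ∏ (1 - s_r X)` one has `(coeff 1)² - 2 coeff 2 = ∑ s_r²` (induction on the product), so
`∑ 1/r² = 0`, a contradiction as there is at least one root.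
Now take `i = j - A`: `0 ≤ i` and `i + 1 ≤ M` by the hypotheses. -/
def COEF : Prop :=
  ∀ (Λ : Type) [Fintype Λ] (χ : Λ → Fin 2 → ℤ) (A B : ℕ), (∀ l, χ l ≠ 0) →
    (Finset.univ.filter (fun l => χ l 1 = 0)).card = A →
    (Finset.univ.filter (fun l => χ l 0 = 0)).card = B →
    ∀ j, A ≤ j → j + 1 + B ≤ Fintype.card Λ →
      coeff (Finsupp.equivFunOnFinite.symm ![j, Fintype.card Λ - j])
        (∏ l, ∑ k, C (χ l k) * X k : MvPolynomial (Fin 2) ℤ) ≠ 0 ∨
      coeff (Finsupp.equivFunOnFinite.symm ![j + 1, Fintype.card Λ - (j + 1)])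
        (∏ l, ∑ k, C (χ l k) * X k : MvPolynomial (Fin 2) ℤ) ≠ 0

/-- The exponents of the unbalanced monomials of degree four in `λ₀, conj λ₀, λ₁, conj λ₁, μ`, one of
each pair of conjugate monomials (there are `32` of them, with total degree `104` in the `λ`'s). -/
def Q4 : Type :=
  {m : Sc 2 → Fin 5 // ∑ τ, (m τ : ℕ) = 4 ∧
    (m (some (Sum.inr 0)) < m (some (Sum.inl 0)) ∨
      (m (some (Sum.inl 0)) = m (some (Sum.inr 0)) ∧
        m (some (Sum.inr 1)) < m (some (Sum.inl 1))))}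

instance : Fintype Q4 := by unfold Q4; infer_instance

instance : DecidableEq Q4 := by unfold Q4; infer_instance

/-- degree in `λ_k` -/
def q4a (m : Q4) (k : Fin 2) : ℕ := m.1 (some (Sum.inl k))

/-- degree in `conj λ_k` -/
def q4b (m : Q4) (k : Fin 2) : ℕ := m.1 (some (Sum.inr k))

/-- **QNUM** (prove `COEF → QNUM`).  Numerical condition for quartic forms in `n ≥ 53` variables.

PROOF.  Let `δ m = ∑_k (q4a m k + q4b m k)`.  Finite computations on `Q4` (`decide +kernel`, or `rfl`, or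
enumeration; `Sc 2 → Fin 5` has `3125` elements): `#Q4 = 32`, `∑ δ = 104`,
`#{q4a m 1 = q4b m 1} = 8` with `∑ δ = 24` over this set, and the same for index `0`; and
`(q4a m 0, q4a m 1) ≠ (q4b m 0, q4b m 1)` for all `m`.
The index set `Λ' = Σ l : (Σ _ : Q4, Fin e), Fin (δ s + c + 1)` has `T = e (104 s + 32 (c + 1))` elements; with
`χ = q4a - q4b`, the number of elements with `χ 1 = 0` is `A = e (24 s + 8 (c + 1))`, the same for `χ 0 = 0`
(`B = A`).  The blocks have `N = n e (s + 1) ≥ 53 e (s + 1)` elements.  Take `s = 16 (c + 1)`; then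
`T = 106 e s ≤ 2 N - 106 e ≤ 2 N - 4`.  Let `j = T / 2`: `A ≤ j`, `j + 1 + B ≤ T`.  COEF gives
`ee = ![j, T - j]` or `![j + 1, T - (j + 1)]`; all entries are `≤ T / 2 + 1 < N`. -/
def QNUM : Prop :=
  ∀ n e c : ℕ, 53 ≤ n → 1 ≤ e → ∃ (s : ℕ) (ee : Fin 2 → ℕ),
    (∀ k, ee k < bn (fun x : ((Fin n × Fin 2) × Fin e) × Fin (s + 1) => x.1.1.2) k) ∧
    ∑ k, ee k = Fintype.card
      (Σ l : (Σ _ : Q4, Fin e), Fin ((∑ k, (q4a l.1 k + q4b l.1 k)) * s + c + 1)) ∧
    coeff (Finsupp.equivFunOnFinite.symm ee)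
      (∏ l : (Σ l : (Σ _ : Q4, Fin e), Fin ((∑ k, (q4a l.1 k + q4b l.1 k)) * s + c + 1)),
        ∑ k, C ((q4a l.1.1 k : ℤ) - (q4b l.1.1 k : ℤ)) * X k : MvPolynomial (Fin 2) ℤ) ≠ 0

/-- **QMAIN** (prove `QH.{u} → QS.{u} → QE.{u} → QMAIN.{u}`).  Quartic forms.

PROOF.  Let `v = Pi.single 0 1 ≠ 0` (`n ≥ 1`).  Apply `MB K` to the polynomials `cf 2 v f m` for `m ∈ Q4`
(they satisfy `Mh` by QH): there is `z` with both blocks `w_0, w_1` nonzero (`w_k = z (·, k)`) and
`evs z (cf 2 v f m) = 0` for `m ∈ Q4`.  By QS it is `0` for all `m` of total degree four with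
`(m (inl 0), m (inl 1)) ≠ (m (inr 0), m (inr 1))` (such an `m` or its swap is in `Q4`).
For the balanced `m`, `swp m = m` so `g_m = evs z (cf 2 v f m)` is fixed by `star`, hence in `K`.  So by QE, with
`N x = x star x ∈ K`: `f (vec v z l μ) = Q (N l_0, N l_1, μ²)` for a ternary quadratic form `Q` over `K`
(the balanced `m` of degree four: `m = (a, a, c, c, g)`, `2a + 2c + g = 4`).
By the hypothesis `Q` has a nontrivial zero `(q_0, q_1, q_2)`.  Let `ν = q_2`, `μ = q_2` if `q_2 ≠ 0`, and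
`ν = 1`, `μ = 0` if `q_2 = 0`; so `μ² = ν q_2`, and choose `l_k` with `N l_k = ν q_k` (sums of two squares).
Then `(l_0, l_1, μ) ≠ 0` and `f (x) = ν² Q (q) = 0` for `x = vec v z l μ`.  If `x ≠ 0` we are done.
Let `x = 0`.  If `l_0 = l_1 = 0` then `μ ≠ 0` and `x = μ v ≠ 0`, a contradiction.  So let `l_k ≠ 0` for
some `k`, and `y = vec v z (l_k in position k, 0 elsewhere) 0`, i.e. `y_i = 2 re (l_k z (i, k))`.  Then
`2 y = 2 y - x = vec v z (l_k in position k, - l_{k'} elsewhere) (- μ)`, so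
`f (2 y) = Q (N l_0, N l_1, μ²) = f (x) = f (0) = 0` (the norms and `μ²` do not see the signs), so
`16 f (y) = 0`.  If `y ≠ 0` done.  If `y = 0`: `0 = f (y) = g N (l_k)²` where `g` is the coefficient of the
square of the `k`-th variable in `Q`, so `g = 0`, so `f (vec v z (λ in position k) 0) = g N(λ)² = 0` for all
`λ ∈ GF K`.  As `w_k ≠ 0` there is `λ ∈ {1, i}` such that this vector (entries `2 re (λ z (i, k))`) is
nonzero. -/
def QMAIN : Prop :=
  ∀ (K : Type u) [Field K] [CharZero K], (∀ x : K, x ^ 2 ≠ -1) →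
    (∀ c : K, ∃ x y : K, x ^ 2 + y ^ 2 = c) →
    (∀ q : Fin 3 → Fin 3 → K, ∃ x : Fin 3 → K, x ≠ 0 ∧ ∑ i, ∑ j, q i j * x i * x j = 0) →
    ∀ n : ℕ, 1 ≤ n → MB K (Prod.snd : Fin n × Fin 2 → Fin 2) q4a q4b →
    ∀ f : MvPolynomial (Fin n) K, f.IsHomogeneous 4 → ∃ x : Fin n → K, x ≠ 0 ∧ eval x f = 0

/-- **GSTEP** (prove `QH.{u} → QE.{u} → QS.{u} → GSTEP.{u}`).  Halving the degrees.

PROOF.  Let `e, f` be a system as in `PB K d r n`.  Let `Λ` be the set of pairs `(j, m)`, `j : Fin r`,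
`m : Sc p → ℕ` with `∑ m = e j` and `(k ↦ m (some (inl k))) ≠ (k ↦ m (some (inr k)))` (a finite type, e.g.
a subtype of `Σ j, piAntidiag univ (e j)`).  For fixed `j` there are at most
`(2 p + e j).choose (e j) ≤ (2 p + d).choose d` such `m` (`Finset.card_piAntidiag`-type lemma: functions
from a set with `2 p + 1` elements with sum `e j`), and the total degree of the bidegree is `≤ e j ≤ d`.
So `∑_Λ (total degree) ≤ r d (2 p + d).choose d < n` and TPM K 1 applies to the polynomials
`cf p 0 (f j) m` (QH; `v = 0`): there is `z` with all blocks `w_k = z (·, k)`, `k : Fin p`, nonzero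
(`bn Prod.snd k = n`), and `evs z (cf p 0 (f j) m) = 0` for all unbalanced `m`.
By QE with `μ = 0` (only `m none = 0` contributes):
`f_j (vec 0 z l 0) = ∑_{m balanced, m none = 0} g_{j,m} ∏_k N(l_k)^{m (inl k)}`, with
`N x = x star x ∈ K` and `g_{j,m} = evs z (cf p 0 (f j) m) ∈ K` by QS.  If `e j` is odd there is no such `m`
and `f_j` vanishes on all these vectors; put `Q_j = 0`, `e' j = 1`.  If `e j` is even these `m` are the
`m (inl k) = m (inr k) = m'_k` with `∑ m' = e j / 2`, so `f_j (vec 0 z l 0) = Q_j (N l_0, …, N l_{p-1})` with `Q_j`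
homogeneous of degree `e' j = e j / 2 ∈ [1, d / 2]`.  By `PB K (d / 2) r p` there is `q ≠ 0` in `K^p` with
`Q_j (q) = 0` for all `j`.  Choose `l_k` with `N l_k = q_k`, `l_k = 0` if `q_k = 0`.  Let `x = vec 0 z l 0`:
`f_j (x) = 0` for all `j`.  If `x ≠ 0` done.  Let `x = 0` and choose `k` with `l_k ≠ 0`,
`y = vec 0 z (l_k in position k, 0 elsewhere) 0`.  `2 y = 2 y - x = vec 0 z (l_k in position k, - l_{k'}
elsewhere) 0`, so `f_j (2 y) = Q_j (q) = 0` (or `0` if `e j` is odd), so `f_j (y) = 0` (`2^(e j) ≠ 0`).  If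
`y ≠ 0` done.  If `y = 0`: for `λ ∈ GF K`, `f_j (vec 0 z (λ in position k) 0) = Q_j (N λ e_k) =
(N λ / N l_k)^(e' j) Q_j (N l_k e_k) = (…) f_j (y) = 0`, and for `λ = 1` or `λ = i` this vector is nonzero
because `w_k ≠ 0`. -/
def GSTEP : Prop :=
  ∀ (K : Type u) [Field K] [CharZero K], (∀ x : K, x ^ 2 ≠ -1) →
    (∀ c : K, ∃ x y : K, x ^ 2 + y ^ 2 = c) → TPM K 1 →
    ∀ r d p n : ℕ, 2 ≤ d → PB K (d / 2) r p → r * d * (2 * p + d).choose d < n → PB K d r n

end Pool.Agent.Helper70.TW
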