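import Pool.Agent.Helper70.TW.DiagSys
import Pool.Agent.Helper70.TW.Goals

/-!
# Systems of diagonal forms: assembly
-/

namespace Pool.Agent.Helper70.TW

open Helper70.Lang

universe u v

/-- The bound for systems of diagonal forms, from the packets. -/
theorem diagSys_main (hF : FTA.{u, v}) (hR : Root.{v}) (hZ : CZero.{u}) (hA : CAlg.{u})
    (hS : CSimple.{u}) (hT : TPMR.{u, v}) (hW : WDIAG.{u, v}) (i r : ℕ) :
    ∀ (s : ℕ) (R : Type v) (K : Type u) [Field R] [IsRealClosed R]
    [Field K] [Algebra R K], Algebra.trdeg R K ≤ (i : Cardinal.{u}) →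
    SS K (2 ^ s) (-1) → ∀ d, 1 ≤ d → DiagSys K r d (Psi i r s d)
  | 0, R, K, _, _, _, _, htr, hy, d, hd => by
    obtain ⟨y, hy⟩ := hy
    have hI : (y 0) ^ 2 = -1 := by simpa using hy
    exact cprop_diagSys (level_one hF hZ hA hS R K i htr (y 0) hI) hd
  | 1, R, K, _, _, _, _, htr, hy, d, hd => by
    by_cases hsq : ∃ b : K, b ^ 2 = -1
    · obtain ⟨b, hb⟩ := hsq
      exact (cprop_diagSys (level_one hF hZ hA hS R K i htr b hb) hd).mono hd (Psi_le_succ i r 0 hd)
    · push Not at hsq
      obtain ⟨y, hy⟩ := hy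
      have hxy : ∃ x y : K, x ^ 2 + y ^ 2 = -1 := ⟨y 0, y 1, by simpa using hy⟩
      intro a
      exact hW R K i (hT R K i htr) hsq hxy r d _ hd (Nat.lt_succ_self _) a
  | s + 2, R, K, _, _, _, _, htr, hy, d, hd => by
    have hcharR := charZero_of_rc R
    have hcharK : CharZero K := charZero_of_injective_algebraMap (algebraMap R K).injective
    have hlt : 2 ^ (s + 1 + 1) - 1 < 2 ^ (s + 1 + 1) := Nat.sub_lt (by positivity) one_pos
    obtain ⟨y₀, A, hy1, hAs⟩ : ∃ y A : K, y ^ 2 + A = -1 ∧
        SS K (2 ^ (s + 1 + 1) - 1) A := by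
      have h1 : SS K (1 + (2 ^ (s + 1 + 1) - 1)) (-1) := by
        rw [Nat.add_sub_cancel' Nat.one_le_two_pow]
        exact hy
      obtain ⟨p, q, hpq, ⟨u, hu⟩, hq⟩ := h1.split
      refine ⟨u 0, q, ?_, hq⟩
      have hu' : u 0 ^ 2 = p := by simpa using hu
      rw [hu', hpq]
    by_cases hsq : ∃ b : K, b ^ 2 = -A
    · -- `-1` is a sum of `2 ^ (s + 1) - 1` squares in `K` already
      obtain ⟨b, hb⟩ := hsq
      have hy' : SS K (2 ^ (s + 1)) (-1) := by
        by_cases hA0 : A = 0
        · have h2 : SS K 1 (-1) := by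
            have := SS.sq y₀
            rwa [show y₀ ^ 2 = -1 by rw [← hy1, hA0, add_zero]] at this
          exact h2.mono Nat.one_le_two_pow
        · exact SS.halve hlt (SS.up A hAs hA0 b (by simpa using hb))
      exact (diagSys_main hF hR hZ hA hS hT hW i r (s + 1) R K htr hy' d hd).mono hd
        (Psi_le_succ i r (s + 1) hd)
    · push Not at hsq
      have hfact : Fact (∀ r : K, r ^ 2 ≠ -A + 0 * r) := ⟨fun r h => hsq r (by simpa using h)⟩
      have hA0 : A ≠ 0 := by
        intro h0
        exact hsq 0 (by rw [h0]; simp)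
      have htrL : Algebra.trdeg R (QuadraticAlgebra K (-A) 0) ≤ (i : Cardinal.{u}) := by
        have hadd := trdeg_add_eq R K (A := QuadraticAlgebra K (-A) 0)
        have h0 : Algebra.trdeg K (QuadraticAlgebra K (-A) 0) = 0 := trdeg_eq_zero
        rw [h0, add_zero] at hadd
        rw [← hadd]
        exact htr
      have hdiag := diagSys_main hF hR hZ hA hS hT hW i r (s + 1) R (QuadraticAlgebra K (-A) 0) htrL
        (SS.halve hlt (SS.up A hAs hA0 _ (omega_sq K A)))
      have hρ := (quadConj K (-A)).norm_neg_one y₀ A hy1 _ (omega_sq K A)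
        (quadConj_omega K (-A))
      refine descent_sys (quadConj K (-A)) r _ hρ (fun e => Psi i r (s + 1) e)
        (fun e he => hdiag e he) ?_ hd
      intro c hc
      obtain ⟨r, hr⟩ := hR R c hc
      refine ⟨algebraMap R K r, ?_⟩
      have := congrArg (algebraMap R K) hr
      rw [map_sum, map_zero] at this
      rw [← this]
      refine Finset.sum_congr rfl fun b _ => ?_
      simp

/-- Systems of diagonal forms over nonreal fields, from the packets. -/
theorem diagSys_final (hF : FTA.{u, v}) (hR : Root.{v}) (hZ : CZero.{u}) (hA : CAlg.{u})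
    (hS : CSimple.{u}) (hT : TPMR.{u, v}) (hW : WDIAG.{u, v}) (i r d : ℕ) (hd : 1 ≤ d)
    (R : Type v) (K : Type u) [Field R] [IsRealClosed R]
    [Field K] [Algebra R K] (htr : Algebra.trdeg R K ≤ (i : Cardinal.{u}))
    (hK : IsSumSq (-1 : K)) (n : ℕ) (hn : Psi i r i d ≤ n) : DiagSys K r d n :=
  (diagSys_main hF hR hZ hA hS hT hW i r i R K htr (level_bound hF hZ hA hS R K i htr hK) d hd).mono
    hd hn

end Pool.Agent.Helper70.TW
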