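import Pool.Agent.Helper70.Lang.Main
import Pool.Agent.Helper70.TW.Bounds

/-!
# Systems of diagonal forms: key lemma and descent

The versions for systems of `r` diagonal forms of the results of `Helper70/Lang/Key.lean` and
`Helper70/Lang/Descent.lean`.
-/

namespace Pool.Agent.Helper70.TW

open Helper70.Lang

universe u v

/-- Every system of `r` diagonal forms of degree `d` in `n` variables over `K` has a nontrivial
zero. -/
def DiagSys (K : Type u) [Field K] (r d n : ℕ) : Prop :=
  ∀ a : Fin r → Fin n → K, ∃ x : Fin n → K, x ≠ 0 ∧ ∀ i, ∑ j, a i j * x j ^ d = 0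

theorem DiagSys.mono {K : Type u} [Field K] {r d n m : ℕ} (hd : 1 ≤ d) (h : DiagSys K r d n)
    (hnm : n ≤ m) : DiagSys K r d m := by
  intro a
  obtain ⟨x, hx, hs⟩ := h (fun i j => a i (Fin.castLE hnm j))
  refine ⟨fun j => if hj : j.1 < n then x ⟨j.1, hj⟩ else 0, ?_, ?_⟩
  · intro h0
    apply hx
    funext j
    have := congrFun h0 (Fin.castLE hnm j)
    simpa using this
  · intro i
    refine Eq.trans ?_ (hs i)
    symm
    refine Finset.sum_of_injOn (fun j => Fin.castLE hnm j)
      (fun _ _ _ _ h => Fin.castLE_injective hnm h) (fun _ _ => Finset.mem_coe.2 (Finset.mem_univ _)) ?_ ?_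
    · intro j _ hj
      have : ¬ j.1 < n := by
        intro hlt
        apply hj
        exact ⟨⟨j.1, hlt⟩, by simp, by ext; simp⟩
      simp [this, show d ≠ 0 by omega]
    · intro j _
      simp

section Quad

variable {K L : Type u} [Field K] [Field L] [Algebra K L]

/-- The key lemma for systems. -/
theorem key_sys (C : Conj K L) (r : ℕ) (φ : ℕ → ℕ) (hφ : ∀ e, 1 ≤ e → DiagSys L r e (φ e))
    {d : ℕ} (hd : 1 ≤ d) (m : ℕ) :
    ∀ (ι : Type) [Fintype ι] (_ : Fintype.card ι = ∏ e ∈ Finset.range m, φ (2 * Nat.lcm d (e + 1)))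
      (a : Fin r → ι → K), ∃ (T : ι → K) (U : ι → L), T ≠ 0 ∧ (∀ j, U j * C.σ (U j) = 1) ∧
        ∀ q : Fin r, ∀ e, 1 ≤ e → e ≤ m →
          ∑ j, algebraMap K L (a q j * T j ^ d) * U j ^ e = 0 := by
  induction m with
  | zero =>
    intro ι _ hι a
    refine ⟨fun _ => 1, fun _ => 1, ?_, by simp, fun _ e h1 h2 => by omega⟩
    intro h0
    have hc : Fintype.card ι = 1 := by simpa using hι
    obtain ⟨x, -⟩ := Fintype.card_eq_one_iff.1 hc
    have := congrFun h0 x
    simp at this
  | succ m ih =>
    intro ι _ hι a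
    classical
    set N := ∏ e ∈ Finset.range m, φ (2 * Nat.lcm d (e + 1)) with hN
    set M := φ (2 * Nat.lcm d (m + 1)) with hM
    have hcard : Fintype.card ι = Fintype.card (Fin M × Fin N) := by
      rw [hι, Finset.prod_range_succ, Fintype.card_prod, Fintype.card_fin, Fintype.card_fin,
        mul_comm]
    let E : ι ≃ Fin M × Fin N := Fintype.equivOfCardEq hcard
    have hblock : ∀ k : Fin M, ∃ (T : Fin N → K) (U : Fin N → L), T ≠ 0 ∧
        (∀ j, U j * C.σ (U j) = 1) ∧ ∀ q : Fin r, ∀ e, 1 ≤ e → e ≤ m →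
          ∑ j, algebraMap K L (a q (E.symm (k, j)) * T j ^ d) * U j ^ e = 0 := by
      intro k
      exact ih (Fin N) (Fintype.card_fin N) (fun q j => a q (E.symm (k, j)))
    choose T U hT hU hTU using hblock
    let γ : Fin r → Fin M → L := fun q k =>
      ∑ j, algebraMap K L (a q (E.symm (k, j)) * T k j ^ d) * U k j ^ (m + 1)
    obtain ⟨w, hw, hws⟩ := hφ (2 * Nat.lcm d (m + 1)) (by
      have := Nat.lcm_pos (show 0 < d by omega) (show 0 < m + 1 by omega)
      omega) γ
    have hsub := fun k => C.subst hd (show 1 ≤ m + 1 by omega) (w k)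
    choose τ v hv1 hv2 hv3 hv4 using hsub
    refine ⟨fun i => τ (E i).1 * T (E i).1 (E i).2, fun i => v (E i).1 * U (E i).1 (E i).2, ?_, ?_, ?_⟩
    · obtain ⟨k, hk⟩ : ∃ k, w k ≠ 0 := by
        by_contra hcon
        push Not at hcon
        exact hw (funext hcon)
      obtain ⟨j, hj⟩ : ∃ j, T k j ≠ 0 := by
        by_contra hcon
        push Not at hcon
        exact hT k (funext hcon)
      intro h0
      have := congrFun h0 (E.symm (k, j))
      simp only [Equiv.apply_symm_apply, Pi.zero_apply, mul_eq_zero] at this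
      exact this.elim (hv3 k hk) hj
    · intro i
      rw [map_mul]
      calc v (E i).1 * U (E i).1 (E i).2 * (C.σ (v (E i).1) * C.σ (U (E i).1 (E i).2))
          = (v (E i).1 * C.σ (v (E i).1)) * (U (E i).1 (E i).2 * C.σ (U (E i).1 (E i).2)) := by
            ring
        _ = 1 := by rw [hv1, hU, one_mul]
    · intro q e he1 he2
      have hsum : ∑ i, algebraMap K L (a q i * (τ (E i).1 * T (E i).1 (E i).2) ^ d) *
            (v (E i).1 * U (E i).1 (E i).2) ^ e =
          ∑ k, algebraMap K L (τ k ^ d) * v k ^ e *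
            ∑ j, algebraMap K L (a q (E.symm (k, j)) * T k j ^ d) * U k j ^ e := by
        rw [← E.symm.sum_comp, Fintype.sum_prod_type]
        refine Finset.sum_congr rfl fun k _ => ?_
        rw [Finset.mul_sum]
        refine Finset.sum_congr rfl fun j _ => ?_
        simp only [Equiv.apply_symm_apply, map_mul, map_pow, mul_pow]
        ring
      rw [hsum]
      rcases Nat.lt_or_ge m e with hlt | hge
      · have hem : e = m + 1 := by omega
        subst hem
        rw [← hws q]
        refine Finset.sum_congr rfl fun k _ => ?_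
        rw [hv2]
        simp only [γ]
        ring
      · refine Finset.sum_eq_zero fun k _ => ?_
        rw [hTU k q e he1 hge, mul_zero]

/-- Descent of bounds for systems of diagonal forms. -/
theorem descent_sys [CharZero K] (C : Conj K L) (r : ℕ) (ρ : L) (hρ : ρ * C.σ ρ = -1)
    (φ : ℕ → ℕ) (hφ : ∀ e, 1 ≤ e → DiagSys L r e (φ e))
    (hroot : ∀ c : ℕ, 1 ≤ c → ∃ s : K, ∑ b ∈ Finset.range (c + 1),
      ((2 * c).choose (2 * b) : K) * ((2 * b).choose b : K) * (-(s ^ 2)) ^ b = 0)
    {d : ℕ} (hd : 1 ≤ d) :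
    DiagSys K r d (∏ e ∈ Finset.range d, φ (2 * Nat.lcm d (e + 1))) := by
  intro a
  obtain ⟨T, U, hT, hU, hS⟩ := key_sys C r φ hφ hd d (Fin _) (Fintype.card_fin _) a
  have hU0 : ∀ j, U j ≠ 0 := fun j h0 => by
    have := hU j
    rw [h0, zero_mul] at this
    exact zero_ne_one this
  have hinj : Function.Injective (algebraMap K L) := (algebraMap K L).injective
  have : CharZero L := charZero_of_injective_algebraMap hinj
  obtain ⟨j₀, hj₀⟩ : ∃ j, T j ≠ 0 := by
    by_contra hcon
    push Not at hcon
    exact hT (funext hcon)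
  -- traces
  have htr : ∀ (z : L) (j : _), ∃ t : K, algebraMap K L t = z * U j + C.σ z * (U j)⁻¹ := by
    intro z j
    obtain ⟨t, ht⟩ := C.fix (z * U j + C.σ (z * U j)) (by rw [map_add, C.invol]; ring)
    refine ⟨t, ?_⟩
    rw [ht, map_mul, C.inv (hU j)]
  rcases Nat.even_or_odd' d with ⟨c, hc | hc⟩
  · -- even degree
    subst hc
    have hc1 : 1 ≤ c := by omega
    obtain ⟨s, hs⟩ := hroot c hc1
    choose t ht using htr ρ
    have main : ∀ s' : K, s' ^ 2 = s ^ 2 → ∀ q : Fin r,
        ∑ j, a q j * (T j * (1 + s' * t j)) ^ (2 * c) = 0 := by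
      intro s' hs' q
      apply hinj
      rw [map_sum, map_zero]
      have h2 := C.even_zero (fun j => a q j * T j ^ (2 * c)) U hU (hS q)
        (algebraMap K L s' * ρ) (algebraMap K L s' * C.σ ρ)
      have h3 : ∑ b ∈ Finset.range (c + 1), ((2 * c).choose (2 * b) : L) *
          ((2 * b).choose b : L) *
            ((algebraMap K L s' * ρ) * (algebraMap K L s' * C.σ ρ)) ^ b = 0 := by
        have h4 : (algebraMap K L s' * ρ) * (algebraMap K L s' * C.σ ρ) =
            algebraMap K L (-(s ^ 2)) := by
          rw [← hs', map_neg, map_pow]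
          linear_combination (algebraMap K L s') ^ 2 * hρ
        rw [h4]
        have := congrArg (algebraMap K L) hs
        rw [map_sum, map_zero] at this
        rw [← this]
        refine Finset.sum_congr rfl fun b _ => ?_
        simp
      rw [h3, zero_mul] at h2
      rw [← h2]
      refine Finset.sum_congr rfl fun j _ => ?_
      simp only [map_mul, map_pow, map_add, map_one, ht, mul_pow]
      ring
    by_cases h0 : 1 + s * t j₀ = 0
    · refine ⟨fun j => T j * (1 + (-s) * t j), ?_, main (-s) (by ring)⟩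
      intro hz
      have := congrFun hz j₀
      simp only [Pi.zero_apply, mul_eq_zero] at this
      rcases this with h | h
      · exact hj₀ h
      · have h2 : (2 : K) = 0 := by linear_combination h0 + h
        exact two_ne_zero h2
    · refine ⟨fun j => T j * (1 + s * t j), ?_, main s rfl⟩
      intro hz
      have := congrFun hz j₀
      simp only [Pi.zero_apply, mul_eq_zero] at this
      exact this.elim hj₀ h0
  · -- odd degree
    subst hc
    choose t ht using htr (C.σ (U j₀))
    refine ⟨fun j => T j * t j, ?_, fun q => ?_⟩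
    · intro hz
      have := congrFun hz j₀
      simp only [Pi.zero_apply, mul_eq_zero] at this
      rcases this with h | h
      · exact hj₀ h
      · have h2 := ht j₀
        rw [h, map_zero, C.invol, mul_inv_cancel₀ (hU0 j₀), mul_comm, hU] at h2
        norm_num at h2
    · apply hinj
      rw [map_sum, map_zero]
      have h2 := C.odd_zero (fun j => a q j * T j ^ (2 * c + 1)) U hU (by omega) (hS q)
        (C.σ (U j₀)) (C.σ (C.σ (U j₀)))
      rw [← h2]
      refine Finset.sum_congr rfl fun j _ => ?_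
      simp only [map_mul, map_pow, ht, mul_pow]
      ring

end Quad

/-- A `C_j`-field has the expected bound for systems of diagonal forms. -/
theorem cprop_diagSys {F : Type u} [Field F] {j : ℕ} (h : CProp F j) {r d : ℕ} (hd : 1 ≤ d) :
    DiagSys F r d (r * d ^ j + 1) := by
  intro a
  let B : Fin r → MultilinearMap F (fun _ : Fin d => (Fin (r * d ^ j + 1) → F)) F := fun i =>
    ∑ l, a i l • (MultilinearMap.mkPiAlgebra F (Fin d) F).compLinearMap
      (fun _ => LinearMap.proj l)
  obtain ⟨x, hx, hxB⟩ := h (Fin (r * d ^ j + 1) → F) (Fin r) (fun _ => d) B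
    (fun _ => hd) (by simp)
  refine ⟨x, hx, fun i => ?_⟩
  have := hxB i
  simpa [B, sum_apply] using this

theorem Psi_pos (i r : ℕ) : ∀ s d : ℕ, 1 ≤ Psi i r s d
  | 0, d => by simp [Psi]
  | 1, d => by simp [Psi]
  | s + 2, d => by
    unfold Psi
    exact Finset.one_le_prod' (fun e _ => Psi_pos i r (s + 1) _)

theorem Psi_mono (i r : ℕ) : ∀ s d d' : ℕ, d ∣ d' → 1 ≤ d' → Psi i r s d ≤ Psi i r s d'
  | 0, d, d', h, h' => by
    have := Nat.le_of_dvd (by omega) h
    unfold Psi
    gcongr
  | 1, d, d', h, h' => by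
    have := Nat.le_of_dvd (by omega) h
    unfold Psi
    gcongr
  | s + 2, d, d', h, h' => by
    have hle := Nat.le_of_dvd (by omega) h
    unfold Psi
    calc ∏ e ∈ Finset.range d, Psi i r (s + 1) (2 * Nat.lcm d (e + 1))
        ≤ ∏ e ∈ Finset.range d, Psi i r (s + 1) (2 * Nat.lcm d' (e + 1)) := by
          refine Finset.prod_le_prod' fun e _ => ?_
          refine Psi_mono i r (s + 1) _ _ ?_ ?_
          · exact Nat.mul_dvd_mul_left 2 (Nat.lcm_dvd (h.trans (Nat.dvd_lcm_left _ _)) (Nat.dvd_lcm_right _ _))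
          · have := Nat.lcm_pos (show 0 < d' by omega) (show 0 < e + 1 by omega)
            omega
      _ ≤ ∏ e ∈ Finset.range d', Psi i r (s + 1) (2 * Nat.lcm d' (e + 1)) := by
          refine Finset.prod_le_prod_of_subset_of_one_le' ?_ ?_
          · exact Finset.range_subset_range.2 hle
          · intro e _ _
            exact Psi_pos i r (s + 1) _

theorem Psi_le_succ (i r s : ℕ) {d : ℕ} (hd : 1 ≤ d) : Psi i r s d ≤ Psi i r (s + 1) d := by
  rcases s with _ | s
  · unfold Psi
    have h1 : r * d ^ i ≤ r * d * (2 * d) ^ i := by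
      calc r * d ^ i = r * 1 * (1 * d) ^ i := by ring
        _ ≤ r * d * (2 * d) ^ i := by gcongr; norm_num
    omega
  · rw [show Psi i r (s + 1 + 1) d = ∏ e ∈ Finset.range d, Psi i r (s + 1) (2 * Nat.lcm d (e + 1))
      from rfl]
    calc Psi i r (s + 1) d ≤ Psi i r (s + 1) (2 * Nat.lcm d (0 + 1)) := by
          refine Psi_mono i r (s + 1) _ _ ?_ ?_
          · exact Dvd.dvd.mul_left (Nat.dvd_lcm_left _ _) 2
          · have := Nat.lcm_pos (show 0 < d by omega) (show 0 < 0 + 1 by omega)
            omega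
      _ ≤ ∏ e ∈ Finset.range d, Psi i r (s + 1) (2 * Nat.lcm d (e + 1)) := by
        refine Finset.single_le_prod' (f := fun e => Psi i r (s + 1) (2 * Nat.lcm d (e + 1))) ?_ ?_
        · intro e _
          exact Psi_pos i r (s + 1) _
        · exact Finset.mem_range.2 (by omega)

end Pool.Agent.Helper70.TW
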