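import Pool.Agent.Helper70.TW.Defs

/-!
# Project TW, part TW: two more goals (small degrees)
-/

namespace Pool.Agent.Helper70.TW

open MvPolynomial

universe u v

/-- **QSYS**.  Systems of `r` quadratic (or linear) forms in `r (r + 1) + 1` variables.

PROOF.  Claim S(r): for every finite-dimensional `K`-vector space `V` with `r (r + 1) < finrank V` and
`Q : Fin r → QuadraticForm K V` there is `x ≠ 0` with `Q j x = 0` for all `j`.  Induction on `r`;
`r = 0` is clear.  Let `r + 1` forms `Q_0, …, Q_r` be given, `n = finrank V > (r + 1) (r + 2) =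
r (r + 1) + 2 (r + 1)`.  We construct subspaces `W_0 ⊂ W_1 ⊂ W_2 ⊂ W_3`, `dim W_t = t`, on which
`Q_0, …, Q_{r-1}` vanish identically.  Given `W_t`, `t ≤ 2`, let `U` be the subspace of all `x` with
`polar Q_j x w = 0` for all `w ∈ W_t`, `j < r`; it is defined by `r t` linear equations so
`dim U ≥ n - r t`.  `W_t ⊆ U`.  Let `U'` be a complement of `W_t` in `U`, `dim U' ≥ n - (r + 1) t > r (r + 1)`.
By S(r) applied to `U'` there is `x ∈ U'`, `x ≠ 0`, with `Q_j x = 0` for `j < r`.  Put
`W_{t+1} = W_t + K x`.  For `w ∈ W_t`: `Q_j (w + c x) = Q_j w + c² Q_j x + c polar Q_j w x = 0`.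
The restriction of `Q_r` to `W_3` is a ternary quadratic form, `Q_r (∑ x_i e_i) = ∑_{i,j} q i j x_i x_j` with
`q i j = (polar Q_r e_i e_j) / 2`, so it has a nontrivial zero by hypothesis.
(In place of subspaces one can work with linearly independent families of `t` vectors.)
For `PB K 2 r (r (r + 1) + 1)`: a homogeneous polynomial `f` of degree two on `V = Fin n → K` is a
quadratic form (for example with the bilinear form `B x y = ∑_{i,j} c_ij x_i y_j`, or
`QuadraticMap` built from `eval`); a linear form `f` is replaced by `f²`, which is homogeneous of degree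
two and has the same zeros. -/
def QSYS : Prop :=
  ∀ (K : Type u) [Field K] [CharZero K],
    (∀ q : Fin 3 → Fin 3 → K, ∃ x : Fin 3 → K, x ≠ 0 ∧ ∑ i, ∑ j, q i j * x i * x j = 0) →
    ∀ r : ℕ, PB K 2 r (r * (r + 1) + 1)

/-- **CUB**.  A cubic form with a nontrivial zero over `K(i)` has a nontrivial zero over `K`.

PROOF.  Write `z = x + i y`, `x, y ∈ K^n` (real and imaginary parts of the entries), not both zero.
If `x, y` are linearly dependent then `z = c x₀` with `c ∈ GF K`, `c ≠ 0`, `x₀ ∈ K^n`, `x₀ ≠ 0` (`GF K` is a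
field since `-1` is not a square in `K`); then `0 = f (z) = c³ f (x₀)`, so `f (x₀) = 0`.
Otherwise consider `g (s, t) = f (s x + t y) = g₀ s³ + g₁ s² t + g₂ s t² + g₃ t³` with `g_j ∈ K`
(a homogeneous polynomial of degree three in `s, t`).  `g (1, i) = f (z) = 0` says
`(g₀ - g₂) + i (g₁ - g₃) = 0`, so `g₀ = g₂`, `g₁ = g₃` and `g = (s² + t²) (g₀ s + g₁ t)`.  Take
`(s, t) = (g₁, - g₀)` if this is not `(0, 0)`, and `(s, t) = (1, 0)` otherwise: `g (s, t) = 0` and
`s x + t y ≠ 0` by linear independence.  (To get `g`: the polynomial `f` with `X i ↦ x i * S + y i * T`.) -/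
def CUB : Prop :=
  ∀ (K : Type u) [Field K] [CharZero K], (∀ x : K, x ^ 2 ≠ -1) →
    ∀ (n : ℕ) (f : MvPolynomial (Fin n) K), f.IsHomogeneous 3 →
    (∃ z : Fin n → GF K, z ≠ 0 ∧ eval z (map (algebraMap K (GF K)) f) = 0) →
    ∃ x : Fin n → K, x ≠ 0 ∧ eval x f = 0

end Pool.Agent.Helper70.TW
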