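import Pool.Agent.Helper70.TW.Goals
import Pool.Agent.Helper70.TW.Goals2
import Pool.Agent.Helper70.Lang.Main
import Pool.Agent.Helper59.TW.TPMR

/-!
# Project TW: explicit bounds for systems over nonreal fields of transcendence degree one

Assembly from the packets.
-/

namespace Pool.Agent.Helper70.TW

open MvPolynomial Helper70.Lang

universe u v

/-- Restriction to fewer variables. -/
theorem PB.mono {K : Type u} [Field K] {d r n m : ℕ} (h : PB K d r n) (hnm : n ≤ m) :
    PB K d r m := by
  classical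
  intro e f he hf
  let g : Fin m → MvPolynomial (Fin n) K := fun j =>
    if hj : j.1 < n then X ⟨j.1, hj⟩ else 0
  obtain ⟨x, hx, hx0⟩ := h e (fun j => aeval g (f j)) he (by
    intro j
    have h1 := (hf j).aeval g (n := 1) (fun i => by
      simp only [g]
      split_ifs
      · exact isHomogeneous_X _ _
      · exact isHomogeneous_zero _ _ _)
    simpa using h1)
  refine ⟨fun j => if hj : j.1 < n then x ⟨j.1, hj⟩ else 0, ?_, ?_⟩
  · intro h0
    apply hx
    funext j
    have := congrFun h0 (Fin.castLE hnm j)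
    simpa using this
  · intro j
    have h2 : (fun j : Fin m => if hj : j.1 < n then x ⟨j.1, hj⟩ else 0) =
        fun i => eval x (g i) := by
      funext i
      simp only [g]
      split_ifs <;> simp
    rw [h2]
    refine Eq.trans ?_ (hx0 j)
    have h3 : (aeval g) (f j) = bind₁ g (f j) := rfl
    rw [h3, show eval x ((bind₁ g) (f j)) = eval₂Hom (RingHom.id K) x (bind₁ g (f j)) from rfl,
      eval₂Hom_bind₁]
    rfl

/-- `C_1`-fields satisfy `PB`. -/
theorem cprop_PB {F : Type u} [Field F] {j : ℕ} (h : CProp F j) {d r n : ℕ} (hn : r * d ^ j < n) :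
    PB F d r n := by
  intro e f he hf
  choose B hB using fun j => exists_multilinear (f j) (hf j)
  obtain ⟨x, hx, hx0⟩ := h (Fin n → F) (Fin r) e B (fun i => (he i).1) (by
    have h1 : ∑ i, (e i) ^ j ≤ ∑ _i : Fin r, d ^ j :=
      Finset.sum_le_sum fun i _ => Nat.pow_le_pow_left (he i).2 j
    simp only [Finset.sum_const, Finset.card_univ, Fintype.card_fin, smul_eq_mul] at h1
    simpa using lt_of_le_of_lt h1 hn)
  exact ⟨x, hx, fun i => by rw [hB, hx0]⟩

/-- Homogeneous polynomials of degree one are linear maps. -/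
theorem exists_linear {K : Type u} [Field K] {n : ℕ} (f : MvPolynomial (Fin n) K)
    (hf : f.IsHomogeneous 1) : ∃ φ : (Fin n → K) →ₗ[K] K, ∀ x, eval x f = φ x := by
  obtain ⟨B, hB⟩ := exists_multilinear f hf
  exact ⟨(MultilinearMap.ofSubsingleton K (Fin n → K) K (0 : Fin 1)).symm B, hB⟩

/-- Linear forms. -/
theorem PB_one {K : Type u} [Field K] {r n : ℕ} (hn : r < n) : PB K 1 r n := by
  intro e f he hf
  have he1 : ∀ j, e j = 1 := fun j => le_antisymm (he j).2 (he j).1
  choose φ hφ using fun j => exists_linear (f j) (he1 j ▸ hf j)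
  obtain ⟨x, hx, hx0⟩ : ∃ x : Fin n → K, x ≠ 0 ∧ LinearMap.pi φ x = 0 := by
    have h1 : LinearMap.ker (LinearMap.pi φ) ≠ ⊥ := by
      apply LinearMap.ker_ne_bot_of_finrank_lt
      simpa using hn
    obtain ⟨x, hx, hx0⟩ := Submodule.exists_mem_ne_zero_of_ne_bot h1
    exact ⟨x, hx0, hx⟩
  exact ⟨x, hx, fun j => by rw [hφ]; exact congrFun hx0 j⟩

/-- Raising the degree bound. -/
theorem PB.of_cases {K : Type u} [Field K] {d n : ℕ} (h : PB K d 1 n)
    (h' : ∀ f : MvPolynomial (Fin n) K, f.IsHomogeneous (d + 1) →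
      ∃ x : Fin n → K, x ≠ 0 ∧ eval x f = 0) : PB K (d + 1) 1 n := by
  intro e f he hf
  by_cases h0 : e 0 = d + 1
  · obtain ⟨x, hx, hx0⟩ := h' (f 0) (h0 ▸ hf 0)
    refine ⟨x, hx, fun j => ?_⟩
    rw [Subsingleton.elim j 0]
    exact hx0
  · refine h e f (fun j => ⟨(he j).1, ?_⟩) hf
    have := (he j).2
    rw [Subsingleton.elim j 0] at this ⊢
    omega

end Pool.Agent.Helper70.TW
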