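import Pool.Agent.Helper70.TW.Gen
import Pool.Agent.Helper70.TW.Bounds

/-!
# Project TW: facts about nonreal fields of transcendence degree one, and the bound function
-/

namespace Pool.Agent.Helper70.TW

open MvPolynomial Helper70.Lang

universe u v

section

variable {K : Type u} [Field K]

theorem fact_of (hsq : ∀ x : K, x ^ 2 ≠ -1) : Fact (∀ r : K, r ^ 2 ≠ -1 + 0 * r) :=
  ⟨fun r h => hsq r (by simpa using h)⟩

/-- In a `C_1`-field every quadratic form in three variables is isotropic. -/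
theorem tern_of_cprop {F : Type u} [Field F] (h : CProp F 1) (q : Fin 3 → Fin 3 → F) :
    ∃ x : Fin 3 → F, x ≠ 0 ∧ ∑ i, ∑ j, q i j * x i * x j = 0 := by
  have hhom : (∑ i, ∑ j, C (q i j) * X i * X j : MvPolynomial (Fin 3) F).IsHomogeneous 2 := by
    refine IsHomogeneous.sum _ _ _ fun i _ => IsHomogeneous.sum _ _ _ fun j _ => ?_
    have h1 := ((isHomogeneous_C (Fin 3) (q i j)).mul (isHomogeneous_X F i)).mul
      (isHomogeneous_X F j)
    simpa using h1
  obtain ⟨x, hx, hx0⟩ := cprop_PB (d := 2) (r := 1) (n := 3) h (by norm_num) (fun _ => 2)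
    (fun _ => ∑ i, ∑ j, C (q i j) * X i * X j) (fun _ => ⟨by norm_num, le_refl _⟩)
    (fun _ => hhom)
  refine ⟨x, hx, ?_⟩
  have := hx0 0
  simpa using this

theorem diag3_of_cprop {F : Type u} [Field F] (h : CProp F 1) (a b c : F) :
    ∃ x y z : F, (x ≠ 0 ∨ y ≠ 0 ∨ z ≠ 0) ∧ a * x ^ 2 + b * y ^ 2 + c * z ^ 2 = 0 := by
  obtain ⟨x, hx, hx0⟩ := h.diag (d := 2) (by norm_num) ![a, b, c]
  refine ⟨x 0, x 1, x 2, ?_, ?_⟩
  · by_contra hcon
    push Not at hcon
    apply hx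
    funext i
    fin_cases i
    · exact hcon.1
    · exact hcon.2.1
    · exact hcon.2.2
  · simpa [Fin.sum_univ_three] using hx0

end

/-- Facts about nonreal fields of transcendence degree at most one without a square root of `-1`. -/
theorem facts (hF : FTA.{u, v}) (hZ : CZero.{u}) (hA : CAlg.{u}) (hS : CSimple.{u})
    (hN : NSUR.{u}) (hTn : TERN.{u}) (R : Type v) (K : Type u) [Field R] [IsRealClosed R] [Field K]
    [Algebra R K] (htr : Algebra.trdeg R K ≤ ((1 : ℕ) : Cardinal.{u})) (hK : IsSumSq (-1 : K))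
    (hsq : ∀ x : K, x ^ 2 ≠ -1) :
    CharZero K ∧ (∀ c : K, ∃ x y : K, x ^ 2 + y ^ 2 = c) ∧
    (∀ q : Fin 3 → Fin 3 → K, ∃ x : Fin 3 → K, x ≠ 0 ∧ ∑ i, ∑ j, q i j * x i * x j = 0) ∧
    (∀ (n d : ℕ) (f : MvPolynomial (Fin n) (GF K)), 1 ≤ d → d < n → f.IsHomogeneous d →
      ∃ z : Fin n → GF K, z ≠ 0 ∧ eval z f = 0) := by
  have hcharR := charZero_of_rc R
  have hcharK : CharZero K := charZero_of_injective_algebraMap (algebraMap R K).injective
  have hfact := fact_of hsq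
  have htrL : Algebra.trdeg R (QuadraticAlgebra K (-1) 0) ≤ ((1 : ℕ) : Cardinal.{u}) := by
    have hadd := trdeg_add_eq R K (A := QuadraticAlgebra K (-1) 0)
    have h0 : Algebra.trdeg K (QuadraticAlgebra K (-1) 0) = 0 := trdeg_eq_zero
    rw [h0, add_zero] at hadd
    rw [← hadd]
    exact htr
  have hω : (QuadraticAlgebra.omega : QuadraticAlgebra K (-1) 0) ^ 2 = -1 := by
    rw [omega_sq, map_one]
  have hC : CProp (QuadraticAlgebra K (-1) 0) 1 :=
    level_one hF hZ hA hS R (QuadraticAlgebra K (-1) 0) 1 htrL _ hω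
  obtain ⟨y, hy⟩ := level_bound hF hZ hA hS R K 1 htr hK
  have h2 : ∃ x y : K, x ^ 2 + y ^ 2 = -1 := ⟨y 0, y 1, by simpa using hy⟩
  have hsum := hN K hsq h2 (fun a b c => diag3_of_cprop hC a b c)
  refine ⟨hcharK, hsum, hTn K hsum (fun q => tern_of_cprop hC q), ?_⟩
  intro n d f hd hn hf
  obtain ⟨z, hz, hz0⟩ := cprop_PB (d := d) (r := 1) (n := n) hC (by simpa using hn) (fun _ => d)
    (fun _ => f) (fun _ => ⟨hd, le_refl _⟩) (fun _ => hf)
  exact ⟨z, hz, hz0 0⟩

theorem BdF_lt (r d : ℕ) : r * d < BdF r d := by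
  unfold BdF
  split_ifs with h1 h2 h3 h4
  · calc r * d ≤ r * 1 := Nat.mul_le_mul_left r h1
      _ < r + 1 := by omega
  · subst h2
    nlinarith [Nat.le_mul_self r]
  · obtain ⟨rfl, rfl⟩ := h3
    norm_num
  · obtain ⟨rfl, rfl⟩ := h4
    norm_num
  · have h5 : 1 ≤ (2 * BdF r (d / 2) + d).choose d := Nat.choose_pos (by omega)
    calc r * d = r * d * 1 := (mul_one _).symm
      _ ≤ r * d * (2 * BdF r (d / 2) + d).choose d := Nat.mul_le_mul_left _ h5
      _ < _ := Nat.lt_succ_self _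

end Pool.Agent.Helper70.TW
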