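import Pool.Agent.Helper70.BU.Main
import Pool.Agent.Helper48.TW.CE
import Pool.Agent.Helper2.BU.APXB
import Pool.Agent.Helper20.BU.APXC
import Pool.Agent.Helper39.BU.ApxP
import Pool.Agent.Helper58.BU.CLIF
import Pool.Agent.Helper49.TW.INJ
import Pool.Agent.Helper46.BU.DIM
import Pool.Agent.Helper16.BU.Diff
import Pool.Agent.Helper15.BU.BUG
import Pool.Agent.Helper51.RC.RCALG
import Pool.Agent.Helper4.RC.RCBOT
import Pool.Agent.Helper75.RC.Sign
import Pool.Agent.Helper31.TW.HTR
import Pool.Agent.Helper32.RC.HSIG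
import Pool.Agent.Helper15.RC.HINE
import Pool.Agent.Helper5.RC.Diag
import Pool.Agent.Helper48.TW.LEMS
import Pool.Agent.Helper77.RC.Prim
import Pool.Agent.Helper30.RC.ECA
import Pool.Agent.Helper16.RC.EC
import Pool.Agent.Helper49.RC.RCREAL
import Pool.Agent.Helper27.RC.ULTRA
import Pool.Agent.Helper59.RC.GERM
import Pool.Agent.Helper9.TW.TT
import Pool.Agent.Helper39.TW.Burc
import Pool.Agent.Helper15.TW.TPMZ

/-!
# Project TW: the Borsuk-Ulam theorem with weights, the transfer theorem, and their combination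
-/

namespace Pool.Agent.Helper70.TW.Link

universe u v

/-- The Borsuk-Ulam theorem with weights over the complex numbers. -/
theorem but : BU.BUT :=
  BU.but (Pool.Agent.Helper39.BU.apxP (Pool.Agent.Helper2.BU.apxb Pool.Agent.Helper48.TW.ce)
    Pool.Agent.Helper20.BU.apxc) Pool.Agent.Helper20.BU.apxc Pool.Agent.Helper58.BU.clif
    Pool.Agent.Helper49.TW.INJ.inj Pool.Agent.Helper46.BU.dim Pool.Agent.Helper16.BU.diff

/-- The general version. -/
theorem bug : BU.BUG := Pool.Agent.Helper15.BU.bug but

/-- Specialisation of separable polynomials with a root. -/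
theorem lems : RC.LEMS.{u, v} :=
  Pool.Agent.Helper48.TW.lems Pool.Agent.Helper75.RC.sign
    (Pool.Agent.Helper32.RC.HS.HSIG Pool.Agent.Helper31.TW.htr)
    (Pool.Agent.Helper32.RC.HS.HSIG Pool.Agent.Helper31.TW.htr)
    Pool.Agent.Helper15.RC.hine Pool.Agent.Helper15.RC.hine Pool.Agent.Helper5.RC.diag

/-- Existential closedness of real closed fields in their real closed extensions. -/
theorem ec : RC.EC.{u} :=
  Pool.Agent.Helper16.RC.ec Pool.Agent.Helper51.RC.rcalg Pool.Agent.Helper4.RC.rcbot
    (Pool.Agent.Helper30.RC.eca lems Pool.Agent.Helper77.RC.prim)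

/-- The transfer theorem for real closed fields. -/
theorem tt : RC.TT.{u} :=
  Pool.Agent.Helper9.TW.tt ec
    (Pool.Agent.Helper27.RC.ultra Pool.Agent.Helper51.RC.rcalg
      Pool.Agent.Helper49.RC.RCREAL.rcreal ec) Pool.Agent.Helper59.RC.germ

/-- The Borsuk-Ulam theorem with weights over every real closed field. -/
theorem burc : BURC.{u} := Pool.Agent.Helper39.TW.burc bug tt

/-- The base of the induction. -/
theorem tpmz : TPMZ.{u} := Pool.Agent.Helper15.TW.tpmz burc

end Pool.Agent.Helper70.TW.Link
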