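import Pool.Agent.Helper70.TW.Gen2
import Pool.Agent.Helper13.TW.QNUM

/-!
# Project TW: quartic forms and the general bound; assembly
-/

namespace Pool.Agent.Helper70.TW

open MvPolynomial Helper70.Lang Pool.Agent.Helper70.BU

universe u v

theorem q4_ne (l : Q4) : q4a l ≠ q4b l := by
  rcases l with ⟨m, hm, hlt | ⟨-, hlt⟩⟩
  · intro h
    have := congrFun h 0
    simp only [q4a, q4b] at this
    have h2 : (m (some (Sum.inr 0)) : ℕ) < (m (some (Sum.inl 0)) : ℕ) := hlt
    omega
  · intro h
    have := congrFun h 1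
    simp only [q4a, q4b] at this
    have h2 : (m (some (Sum.inr 1)) : ℕ) < (m (some (Sum.inl 1)) : ℕ) := hlt
    omega

theorem bn_snd (n p : ℕ) (k : Fin p) : bn (Prod.snd : Fin n × Fin p → Fin p) k = n := by
  unfold bn
  have h1 : (Finset.univ.filter (fun x : Fin n × Fin p => x.2 = k)) =
      (Finset.univ : Finset (Fin n)).map ⟨fun i => (i, k), fun a b h => by simpa using h⟩ := by
    ext ⟨i, j⟩
    simp [eq_comm]
  rw [h1]
  simp

/-- The system for quartic forms has solutions over fields of transcendence degree at most one over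
a real closed field. -/
theorem MB_Q4 (hT : TPMR.{u, u}) (hA : ALGS.{u}) (hS : SIMS.{u}) (hB : BURC.{u}) (hQ : QNUM)
    (R : Type v) (K : Type u) [Field R] [IsRealClosed R] [Field K] [Algebra R K]
    (htr : Algebra.trdeg R K ≤ ((1 : ℕ) : Cardinal.{u})) (n : ℕ) (hn : 53 ≤ n) :
    MB K (Prod.snd : Fin n × Fin 2 → Fin 2) q4a q4b := by
  have hR' : IsRealClosed (⊥ : IntermediateField R K) :=
    Pool.Agent.Helper59.TW.rc_equiv (IntermediateField.botEquiv R K).symm.toRingEquiv
  have hle : Algebra.trdeg (⊥ : IntermediateField R K) K ≤ ((1 : ℕ) : Cardinal.{u}) := by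
    have hadd := trdeg_add_eq R (⊥ : IntermediateField R K) (A := K)
    have h1 : Algebra.trdeg (⊥ : IntermediateField R K) K ≤ Algebra.trdeg R K := by
      rw [← hadd]
      exact self_le_add_left _ _
    exact h1.trans htr
  generalize (⊥ : IntermediateField R K) = R' at hR' hle
  by_cases halg : Algebra.IsAlgebraic R' K
  · have h0 : Algebra.trdeg R' K ≤ ((0 : ℕ) : Cardinal.{u}) := by
      rw [trdeg_eq_zero_iff.2 halg]
      simp
    refine hT R' K 0 h0 _ _ _ _ _ _ q4_ne fun k => ?_
    rw [bn_snd]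
    simp only [pow_zero, Finset.sum_const, Finset.card_univ, smul_eq_mul, mul_one,
      Pool.Agent.Helper13.TW.card_Q4]
    omega
  · obtain ⟨t, ht⟩ : ∃ t : K, ¬ IsAlgebraic R' t := by
      by_contra hcon
      push Not at hcon
      exact halg ⟨hcon⟩
    have halg' : Algebra.IsAlgebraic (IntermediateField.adjoin R' ({t} : Set K)) K := by
      have hadd := trdeg_add_eq R' (IntermediateField.adjoin R' ({t} : Set K)) (A := K)
      have hne : Algebra.trdeg R' (IntermediateField.adjoin R' ({t} : Set K)) ≠ 0 := by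
        intro h0
        have halg' := trdeg_eq_zero_iff.1 h0
        apply ht
        have h2 := halg'.isAlgebraic
          (⟨t, IntermediateField.mem_adjoin_simple_self R' t⟩ :
            IntermediateField.adjoin R' ({t} : Set K))
        exact h2.algebraMap (A := K)
      have h1le : (1 : Cardinal.{u}) ≤
          Algebra.trdeg R' (IntermediateField.adjoin R' ({t} : Set K)) :=
        Cardinal.one_le_iff_ne_zero.2 hne
      have h3 : Algebra.trdeg (IntermediateField.adjoin R' ({t} : Set K)) K + 1 ≤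
          (0 : Cardinal.{u}) + 1 := by
        calc Algebra.trdeg (IntermediateField.adjoin R' ({t} : Set K)) K + 1
            ≤ Algebra.trdeg (IntermediateField.adjoin R' ({t} : Set K)) K +
              Algebra.trdeg R' (IntermediateField.adjoin R' ({t} : Set K)) := by gcongr
          _ = Algebra.trdeg R' K := by rw [add_comm, hadd]
          _ ≤ ((1 : ℕ) : Cardinal.{u}) := hle
          _ = (0 : Cardinal.{u}) + 1 := by simp
      have h4 := Cardinal.add_one_le_add_one_iff.1 h3
      exact trdeg_eq_zero_iff.1 (le_antisymm h4 zero_le)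
    refine hA (IntermediateField.adjoin R' ({t} : Set K)) K (Fin n × Fin 2) (Fin 2) Q4 Prod.snd
      q4a q4b fun e he => ?_
    refine hS R' (IntermediateField.adjoin R' ({t} : Set K))
      (IntermediateField.AdjoinSimple.gen R' t) ?_ ?_ ((Fin n × Fin 2) × Fin e) (Fin 2)
      (Σ _ : Q4, Fin e) _ _ _ fun c => ?_
    · intro halg2
      apply ht
      have h2 := halg2.algebraMap (A := K)
      simpa using h2
    · intro x
      obtain ⟨r, s, hrs⟩ := (IntermediateField.mem_adjoin_simple_iff R' (x : K)).1 x.2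
      refine ⟨r, s, ?_⟩
      apply Subtype.ext
      rw [hrs]
      simp
    · obtain ⟨s, ee, h1, h2, h3⟩ := hQ n e c hn he
      exact ⟨s, hB R' _ _ _ _ _ _ ee h1 h2 h3⟩

/-- Quartic forms in `53` variables. -/
theorem quartic (hT : TPMR.{u, u}) (hA : ALGS.{u}) (hS : SIMS.{u}) (hB : BURC.{u}) (hQ : QNUM)
    (hM : QMAIN.{u}) (hF : FTA.{u, v}) (hZ : CZero.{u}) (hCA : CAlg.{u}) (hCS : CSimple.{u})
    (hN : NSUR.{u}) (hTn : TERN.{u})
    (R : Type v) (K : Type u) [Field R] [IsRealClosed R] [Field K] [Algebra R K]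
    (htr : Algebra.trdeg R K ≤ ((1 : ℕ) : Cardinal.{u})) (hK : IsSumSq (-1 : K))
    (hsq : ∀ x : K, x ^ 2 ≠ -1) (n : ℕ) (hn : 53 ≤ n) (f : MvPolynomial (Fin n) K)
    (hf : f.IsHomogeneous 4) : ∃ x : Fin n → K, x ≠ 0 ∧ eval x f = 0 := by
  obtain ⟨_, h1, h2, -⟩ := facts hF hZ hCA hCS hN hTn R K htr hK hsq
  exact hM K hsq h1 h2 n (by omega) (MB_Q4 hT hA hS hB hQ R K htr n hn) f hf

/-- The bound for systems, from the packets. -/
theorem systems (hT : TPMR.{u, u}) (hT' : TPMR.{u, v}) (hA : ALGS.{u}) (hS : SIMS.{u})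
    (hB : BURC.{u}) (hQ : QNUM)
    (hM : QMAIN.{u}) (hF : FTA.{u, v}) (hZ : CZero.{u}) (hCA : CAlg.{u}) (hCS : CSimple.{u})
    (hN : NSUR.{u}) (hTn : TERN.{u}) (hG : GSTEP.{u}) (hQS : QSYS.{u}) (hCub : CUB.{u})
    (R : Type v) (K : Type u) [Field R] [IsRealClosed R] [Field K] [Algebra R K]
    (htr : Algebra.trdeg R K ≤ ((1 : ℕ) : Cardinal.{u})) (hK : IsSumSq (-1 : K)) (r d : ℕ) :
    PB K d r (BdF r d) := by
  by_cases hsq : ∃ b : K, b ^ 2 = -1
  · obtain ⟨b, hb⟩ := hsq
    have h1 := level_one hF hZ hCA hCS R K 1 htr b hb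
    exact cprop_PB h1 (by simpa using BdF_lt r d)
  · push Not at hsq
    obtain ⟨_, h1, h2, h3⟩ := facts hF hZ hCA hCS hN hTn R K htr hK hsq
    have hquad : ∀ r, PB K 2 r (r * (r + 1) + 1) := hQS K h2
    have hcubic : PB K 3 1 4 := by
      refine PB.of_cases ((hquad 1).mono (by norm_num)) fun f hf => ?_
      refine hCub K hsq 4 f hf (h3 4 3 _ (by norm_num) (by norm_num) ?_)
      exact hf.map _
    have hquart : PB K 4 1 53 := by
      refine PB.of_cases (hcubic.mono (by norm_num)) fun f hf => ?_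
      exact hM K hsq h1 h2 53 (by omega) (MB_Q4 hT hA hS hB hQ R K htr 53 (le_refl _)) f hf
    induction d using Nat.strong_induction_on with
    | _ d ih =>
      unfold BdF
      split_ifs with c1 c2 c3 c4
      · rcases Nat.eq_zero_or_pos d with h0 | h0
        · subst h0
          intro e f he hf
          exact PB_one (K := K) (r := r) (n := r + 1) (Nat.lt_succ_self r) e f
            (fun j => ⟨(he j).1, (he j).2.trans (by norm_num)⟩) hf
        · have : d = 1 := by omega
          subst this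
          exact PB_one (Nat.lt_succ_self r)
      · subst c2
        exact hquad r
      · obtain ⟨rfl, rfl⟩ := c3
        exact hcubic
      · obtain ⟨rfl, rfl⟩ := c4
        exact hquart
      · exact hG K hsq h1 (hT' R K 1 htr) r d (BdF r (d / 2)) _ (by omega)
          (ih (d / 2) (by omega)) (Nat.lt_succ_self _)

end Pool.Agent.Helper70.TW
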