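import Pool.Agent.Helper70.TW.Link1
import Pool.Agent.Helper70.TW.Algs
import Pool.Agent.Helper70.TW.Quart
import Pool.Agent.Helper70.TW.DiagMain
import Pool.Agent.Helper51.Lang.CZero
import Pool.Agent.Helper51.Lang.CAlg
import Pool.Agent.Helper32.Lang.Root
import Pool.Agent.Helper48.TW.SUBS
import Pool.Agent.Helper65.TW.TRF
import Pool.Agent.Helper38.TW.SIMS
import Pool.Agent.Helper51.TW.TPMA
import Pool.Agent.Helper46.TW.TPMS
import Pool.Agent.Helper27.TW.TWF
import Pool.Agent.Helper26.TW.WID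
import Pool.Agent.Helper50.TW.WDIAG
import Pool.Agent.Helper90.TW.NSUR
import Pool.Agent.Helper8.TW.TERN
import Pool.Agent.Helper84.TW.QH
import Pool.Agent.Helper5.TW.QE
import Pool.Agent.Helper2.TW.COEF
import Pool.Agent.Helper37.TW.QMain
import Pool.Agent.Helper58.TW.GSTEP
import Pool.Agent.Helper94.TW.QSYS
import Pool.Agent.Helper77.TW.Cub

/-!
# Project TW: all packets put together
-/

namespace Pool.Agent.Helper70.TW.Link

open MvPolynomial

universe u v

theorem trf : TRF.{u} := Pool.Agent.Helper65.TWT.trf Pool.Agent.Helper48.TW.subs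

theorem algs : ALGS.{u} := algs' trf

theorem sims : SIMS.{u} := Pool.Agent.Helper38.TW.sims trf

/-- The twisted Tsen-Lang theorem over `K[i]`. -/
theorem tpmr : TPMR.{u, v} :=
  Pool.Agent.Helper59.TW.tpmR tpmz (Pool.Agent.Helper51.TW.tpma algs)
    (Pool.Agent.Helper46.TW.tpms sims)

theorem qnum : QNUM := Pool.Agent.Helper13.TW.qnum Pool.Agent.Helper2.TW.coef

theorem qmain : QMAIN.{u} :=
  Pool.Agent.Helper37.TW.qmain Pool.Agent.Helper84.TW.qh Pool.Agent.Helper84.TW.qs
    Pool.Agent.Helper5.TW.qe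

theorem gstep : GSTEP.{u} :=
  Pool.Agent.Helper58.GSTEP.gstep Pool.Agent.Helper84.TW.qh Pool.Agent.Helper5.TW.qe
    Pool.Agent.Helper84.TW.qs

theorem wdiag : WDIAG.{u, v} :=
  Pool.Agent.Helper50.TW.wdiag Pool.Agent.Helper26.TW.wid
    (Helper32.Lang.root Pool.Agent.Helper51.Lang.FTA.irr2)

/-- Explicit bounds for systems of forms over a nonreal field of transcendence degree at most one. -/
theorem systems_all (R : Type v) (K : Type u) [Field R] [IsRealClosed R] [Field K] [Algebra R K]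
    (htr : Algebra.trdeg R K ≤ ((1 : ℕ) : Cardinal.{u})) (hK : IsSumSq (-1 : K)) (r d : ℕ) :
    PB K d r (BdF r d) :=
  systems tpmr tpmr algs sims burc qnum qmain Pool.Agent.Helper51.Lang.FTA.fta
    Pool.Agent.Helper51.Lang.cZero Pool.Agent.Helper51.Lang.cAlg Pool.Agent.Helper51.Lang.cSimple
    Pool.Agent.Helper90.TW.nsur Pool.Agent.Helper8.TW.tern gstep Pool.Agent.Helper94.TW.qsys
    Pool.Agent.Helper77.TW.cub R K htr hK r d

/-- Systems of diagonal forms. -/
theorem diag_all (i r d : ℕ) (hd : 1 ≤ d)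
    (R : Type v) (K : Type u) [Field R] [IsRealClosed R]
    [Field K] [Algebra R K] (htr : Algebra.trdeg R K ≤ (i : Cardinal.{u}))
    (hK : IsSumSq (-1 : K)) (n : ℕ) (hn : Psi i r i d ≤ n) : DiagSys K r d n :=
  diagSys_final Pool.Agent.Helper51.Lang.FTA.fta
    (Helper32.Lang.root Pool.Agent.Helper51.Lang.FTA.irr2) Pool.Agent.Helper51.Lang.cZero
    Pool.Agent.Helper51.Lang.cAlg Pool.Agent.Helper51.Lang.cSimple tpmr wdiag i r d hd R K htr hK n hn

end Pool.Agent.Helper70.TW.Link
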